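import Pool.Agent.T9h67.MB.Loc

set_option autoImplicit false
set_option linter.unusedSectionVars false

open MvPolynomial

namespace Pool.Agent.T9h19.MB

section
variable {V : Type} [Fintype V] [DecidableEq V]

/-! ## (B1) local derivations -/

theorem stat_bool (F : Finset (Cl V)) (x : V) : Stat (lift F) 100000 (lp x * lp x - lp x) := by
  exact Pool.Agent.T9h67.MB.stat_bool F x

theorem stat_true (F : Finset (Cl V)) (x : V) (h : forb [(x, false)] ∈ F) :
    Stat (lift F) 100000 (lp x - 1) := by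
  exact Pool.Agent.T9h67.MB.stat_true F x h

theorem stat_false (F : Finset (Cl V)) (x : V) (h : forb [(x, true)] ∈ F) :
    Stat (lift F) 100000 (lp x) := by
  exact Pool.Agent.T9h67.MB.stat_false F x h

theorem stat_eq (F : Finset (Cl V)) (x y : V) (hxy : x ≠ y) (h : EQ x y ⊆ F) :
    Stat (lift F) 100000 (lp x - lp y) := by
  exact Pool.Agent.T9h67.MB.stat_eq F x y hxy h

theorem stat_add (F : Finset (Cl V)) (x y z : V) (hxy : x ≠ y) (hxz : x ≠ z) (hyz : y ≠ z)
    (h : ADD x y z ⊆ F) : Stat (lift F) 100000 (lp z - lp x - lp y) := by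
  exact Pool.Agent.T9h67.MB.stat_add F x y z hxy hxz hyz h

theorem stat_andn (F : Finset (Cl V)) (x y z : V) (hxy : x ≠ y) (hxz : x ≠ z) (hyz : y ≠ z)
    (h : ANDN x y z ⊆ F) : Stat (lift F) 100000 (lp z - lp x + lp x * lp y) := by
  exact Pool.Agent.T9h67.MB.stat_andn F x y z hxy hxz hyz h

/-! (B1') the rules for `Stat` (any CNF) -/

theorem Stat.zero (G : Finset (Cl V)) : Stat G 0 0 := by
  exact Pool.Agent.T9h67.MB.Stat.zero G

theorem Stat.mono {G : Finset (Cl V)} {s s' : ℕ} {p : Pol V} (h : Stat G s p) (hs : s ≤ s') :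
    Stat G s' p := by
  exact Pool.Agent.T9h67.MB.Stat.mono h hs

theorem Stat.add {G : Finset (Cl V)} {s s' : ℕ} {p p' : Pol V} (h : Stat G s p)
    (h' : Stat G s' p') : Stat G (s + s') (p + p') := by
  exact Pool.Agent.T9h67.MB.Stat.add h h'

theorem Stat.smul {G : Finset (Cl V)} {s : ℕ} {p : Pol V} (a : ℚ) (h : Stat G s p) :
    Stat G s (C a * p) := by
  exact Pool.Agent.T9h67.MB.Stat.smul a h

theorem Stat.sum {G : Finset (Cl V)} {ι : Type} (I : Finset ι) {s : ℕ} {p : ι → Pol V}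
    (h : ∀ i ∈ I, Stat G s (p i)) : Stat G (I.card * s) (∑ i ∈ I, p i) := by
  exact Pool.Agent.T9h67.MB.Stat.sum I h

end

end Pool.Agent.T9h19.MB
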