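import Mathlib

/-!
# Monomial-size versus bit-complexity on CNFs: definitions

SOS and PCR refutations over the rationals of (the translations of) CNFs, their monomial-size and
the number of bits of their coefficients.
-/

set_option autoImplicit false

open MvPolynomial

namespace Pool.Agent.T9h19.MB

/-- A clause over the variables `V`: a finite set of literals; `(v, true)` is the literal `v` and
`(v, false)` is the literal `¬ v`. -/
abbrev Cl (V : Type) := Finset (V × Bool)

/-- The polynomials over the variables `x_v = (v, true)` and the twins `x̄_v = (v, false)`. -/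
abbrev Pol (V : Type) := MvPolynomial (V × Bool) ℚ

section
variable {V : Type}

/-- The translation of a clause: the product of `x̄_v` over the positive literals `v` and of `x_v` over
the negative literals `¬ v`. -/
noncomputable def tr (C : Cl V) : Pol V := ∏ l ∈ C, X (l.1, !l.2)

/-- The logical axiom `x_v ^ 2 - x_v`. -/
noncomputable def axB (v : V) : Pol V := X (v, true) ^ 2 - X (v, true)

/-- The logical axiom `x_v + x̄_v - 1`. -/
noncomputable def axT (v : V) : Pol V := X (v, true) + X (v, false) - 1

/-- The number of bits of the numerator and of the denominator of a rational number. -/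
def cbits (q : ℚ) : ℕ := Nat.size q.num.natAbs + Nat.size q.den

/-- The number of monomials of a polynomial. -/
noncomputable def msize (p : Pol V) : ℕ := p.support.card

/-- The number of bits of the coefficients of a polynomial. -/
noncomputable def pbits (p : Pol V) : ℕ := ∑ m ∈ p.support, cbits (p.coeff m)

/-- An SOS refutation (with rational coefficients) of the CNF `F`: the identity
`-1 = ∑ r_k ^ 2 + ∑ t_C tr(C) + ∑ (u_v (x_v ^ 2 - x_v) + w_v (x_v + x̄_v - 1))`. -/
structure SOS [Fintype V] (F : Finset (Cl V)) where
  K : ℕ
  r : Fin K → Pol V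
  t : Cl V → Pol V
  u : V → Pol V
  w : V → Pol V
  eq : -1 = ∑ k, r k ^ 2 + ∑ C ∈ F, t C * tr C + ∑ v, (u v * axB v + w v * axT v)

/-- The number of explicit monomials: those of the `r_k`, `t_C`, `tr(C)` (one), `u_v`, `w_v` and of the
logical axioms (two and three). -/
noncomputable def SOS.size [Fintype V] {F : Finset (Cl V)} (π : SOS F) : ℕ :=
  ∑ k, msize (π.r k) + ∑ C ∈ F, (msize (π.t C) + 1) + ∑ v, (msize (π.u v) + msize (π.w v) + 5)

/-- The number of bits of the coefficients of the `r_k`, `t_C`, `u_v`, `w_v`. -/
noncomputable def SOS.bits [Fintype V] {F : Finset (Cl V)} (π : SOS F) : ℕ :=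
  ∑ k, pbits (π.r k) + ∑ C ∈ F, pbits (π.t C) + ∑ v, (pbits (π.u v) + pbits (π.w v))

/-- A PCR refutation over the rationals of the CNF `F`: lines `p 0, ..., p (len - 1)`, each of them the
translation of a clause of `F`, a logical axiom, a variable times an earlier line or a linear
combination of two earlier lines; the last line is `1`. -/
structure PCR (F : Finset (Cl V)) where
  len : ℕ
  p : ℕ → Pol V
  step : ∀ i < len, (∃ C ∈ F, p i = tr C) ∨ (∃ v, p i = axB v) ∨ (∃ v, p i = axT v) ∨
    (∃ x : V × Bool, ∃ j < i, p i = X x * p j) ∨
    (∃ j < i, ∃ k < i, ∃ a b : ℚ, p i = C a * p j + C b * p k)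
  pos : 0 < len
  last : p (len - 1) = 1

/-- The number of monomials in all lines. -/
noncomputable def PCR.size {F : Finset (Cl V)} (π : PCR F) : ℕ :=
  ∑ i ∈ Finset.range π.len, msize (π.p i)

/-- The number of bits of the coefficients of all lines. -/
noncomputable def PCR.bits {F : Finset (Cl V)} (π : PCR F) : ℕ :=
  ∑ i ∈ Finset.range π.len, pbits (π.p i)

end

end Pool.Agent.T9h19.MB
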