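import Pool.Agent.T9h19.MB.Defs

/-!
# The chain of gadgets: sums over the tokens of a gadget, the moments, the numbers of right tokens
-/

set_option autoImplicit false

namespace Pool.Agent.T9h19.MB

section sums
variable {n μ : ℕ} [NeZero n]

theorem chain_sum {M : Type} [AddCommMonoid M] (f : TL n μ → M) (j : Fin (n + 1)) :
    ∑ a ∈ (chain n μ).Ls.filter (fun a => (chain n μ).cl a = j), f a =
      (∑ p : Fin (2 * μ) × Bool, if (0 : Fin (n + 1)) = j then f (.inl p) else 0) +
      ((∑ p : Fin n × Fin (2 * μ), if p.1 ≠ 0 ∧ p.1.castSucc = j then f (.inr (.inl p)) else 0) +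
      (∑ p : Fin n × Fin (2 * μ) × Fin (2 * μ),
        if p.2.1 ≠ p.2.2 ∧ p.1.succ = j then f (.inr (.inr p)) else 0)) := by
  have h : (chain n μ).Ls.filter (fun a => (chain n μ).cl a = j) =
      Finset.univ.filter fun a => validL a = true ∧ (chain n μ).cl a = j := by
    ext a
    constructor
    · intro h
      have h1 := Finset.mem_filter.mp h
      have h2 := Finset.mem_filter.mp h1.1
      exact Finset.mem_filter.mpr ⟨Finset.mem_univ _, h2.2, h1.2⟩
    · intro h
      have h1 := Finset.mem_filter.mp h
      exact Finset.mem_filter.mpr ⟨Finset.mem_filter.mpr ⟨Finset.mem_univ _, h1.2.1⟩, h1.2.2⟩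
  rw [h, Finset.sum_filter, Fintype.sum_sum_type, Fintype.sum_sum_type]
  congr 1
  · refine Finset.sum_congr rfl fun p _ => ?_
    simp [chain, validL]
  · congr 1
    · refine Finset.sum_congr rfl fun p _ => ?_
      simp [chain, validL]
    · refine Finset.sum_congr rfl fun p _ => ?_
      simp [chain, validL]

theorem sum_first {M : Type} [AddCommMonoid M] (f : TL n μ → M) :
    ∑ a ∈ (chain n μ).Ls.filter (fun a => (chain n μ).cl a = 0), f a =
      ∑ k : Fin (2 * μ), (f (.inl (k, true)) + f (.inl (k, false))) := by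
  rw [chain_sum]
  have h1 : (∑ p : Fin n × Fin (2 * μ), if p.1 ≠ 0 ∧ p.1.castSucc = (0 : Fin (n + 1)) then
      f (.inr (.inl p)) else 0) = 0 := by
    refine Finset.sum_eq_zero fun p _ => ?_
    rw [if_neg]
    rintro ⟨h, h'⟩
    apply h
    apply Fin.ext
    have := congrArg Fin.val h'
    simpa using this
  have h2 : (∑ p : Fin n × Fin (2 * μ) × Fin (2 * μ),
        if p.2.1 ≠ p.2.2 ∧ p.1.succ = (0 : Fin (n + 1)) then f (.inr (.inr p)) else 0) = 0 := by
    refine Finset.sum_eq_zero fun p _ => ?_
    rw [if_neg]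
    rintro ⟨_, h'⟩
    exact Fin.succ_ne_zero _ h'
  rw [h1, h2, add_zero, add_zero]
  simp only [if_true]
  rw [Fintype.sum_prod_type]
  refine Finset.sum_congr rfl fun k _ => ?_
  rw [Fintype.sum_bool]

omit [NeZero n] in
theorem sum_pairs {M : Type} [AddCommMonoid M] (g : Fin n × Fin (2 * μ) × Fin (2 * μ) → M)
    (i : Fin n) (j : Fin (n + 1)) (hij : i.succ = j) :
    (∑ p : Fin n × Fin (2 * μ) × Fin (2 * μ),
        if p.2.1 ≠ p.2.2 ∧ p.1.succ = j then g p else 0) =
      ∑ k : Fin (2 * μ), ∑ k' ∈ Finset.univ.filter (fun k' => k ≠ k'), g (i, k, k') := by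
  rw [Fintype.sum_prod_type]
  rw [Finset.sum_eq_single i]
  · rw [Fintype.sum_prod_type]
    refine Finset.sum_congr rfl fun k _ => ?_
    rw [Finset.sum_filter]
    refine Finset.sum_congr rfl fun k' _ => ?_
    by_cases h : k = k'
    · simp [h]
    · simp [h, hij]
  · intro i' _ hi'
    refine Finset.sum_eq_zero fun p _ => ?_
    rw [if_neg]
    rintro ⟨_, h'⟩
    rw [← hij] at h'
    exact hi' (Fin.succ_injective _ h')
  · intro h
    exact absurd (Finset.mem_univ _) h

theorem sum_next {M : Type} [AddCommMonoid M] (f : TL n μ → M) (i j : Fin n)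
    (hij : j.val = i.val + 1) :
    ∑ a ∈ (chain n μ).Ls.filter (fun a => (chain n μ).cl a = j.castSucc), f a =
      ∑ k : Fin (2 * μ), f (.inr (.inl (j, k))) +
      ∑ k : Fin (2 * μ), ∑ k' ∈ Finset.univ.filter (fun k' => k ≠ k'),
        f (.inr (.inr (i, k, k'))) := by
  rw [chain_sum]
  have hj0 : (0 : Fin (n + 1)) ≠ j.castSucc := by
    intro h
    have := congrArg Fin.val h
    simp at this
    omega
  have hj0' : j ≠ 0 := by
    intro h
    have := congrArg Fin.val h
    rw [Fin.val_zero] at this
    omega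
  rw [sum_pairs (fun p => f (.inr (.inr p))) i j.castSucc (by
    apply Fin.ext; simp [hij])]
  have h1 : (∑ p : Fin (2 * μ) × Bool, if (0 : Fin (n + 1)) = j.castSucc then f (.inl p) else 0)
      = 0 := by
    refine Finset.sum_eq_zero fun p _ => ?_
    rw [if_neg hj0]
  rw [h1, zero_add]
  congr 1
  rw [Fintype.sum_prod_type, Finset.sum_eq_single j]
  · refine Finset.sum_congr rfl fun k _ => ?_
    rw [if_pos ⟨hj0', rfl⟩]
  · intro i' _ hi'
    refine Finset.sum_eq_zero fun p _ => ?_
    rw [if_neg]
    rintro ⟨_, h'⟩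
    exact hi' (Fin.castSucc_injective _ h')
  · intro h
    exact absurd (Finset.mem_univ _) h

theorem sum_last {M : Type} [AddCommMonoid M] (f : TL n μ → M) (i : Fin n)
    (hi : i.val + 1 = n) :
    ∑ a ∈ (chain n μ).Ls.filter (fun a => (chain n μ).cl a = Fin.last n), f a =
      ∑ k : Fin (2 * μ), ∑ k' ∈ Finset.univ.filter (fun k' => k ≠ k'),
        f (.inr (.inr (i, k, k'))) := by
  rw [chain_sum]
  have hn : 0 < n := Nat.pos_of_ne_zero (NeZero.ne n)
  rw [sum_pairs (fun p => f (.inr (.inr p))) i (Fin.last n) (by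
    apply Fin.ext; simp [hi])]
  have h1 : (∑ p : Fin (2 * μ) × Bool, if (0 : Fin (n + 1)) = Fin.last n then f (.inl p) else 0)
      = 0 := by
    refine Finset.sum_eq_zero fun p _ => ?_
    rw [if_neg]
    intro h
    have := congrArg Fin.val h
    simp at this
    omega
  have h2 : (∑ p : Fin n × Fin (2 * μ), if p.1 ≠ 0 ∧ p.1.castSucc = Fin.last n then
      f (.inr (.inl p)) else 0) = 0 := by
    refine Finset.sum_eq_zero fun p _ => ?_
    rw [if_neg]
    rintro ⟨_, h'⟩
    have := congrArg Fin.val h'
    have h3 := p.1.isLt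
    simp at this
    omega
  rw [h1, h2, zero_add, zero_add]

/-- The three kinds of gadgets. -/
theorem cases_gadget (j : Fin (n + 1)) :
    j = 0 ∨ (∃ i i' : Fin n, i'.val = i.val + 1 ∧ j = i'.castSucc) ∨
      ∃ i : Fin n, i.val + 1 = n ∧ j = Fin.last n := by
  have hn : 0 < n := Nat.pos_of_ne_zero (NeZero.ne n)
  rcases Nat.eq_zero_or_pos j.val with h | h
  · left
    apply Fin.ext
    simpa using h
  · right
    rcases Nat.lt_or_ge j.val n with h' | h'
    · left
      refine ⟨⟨j.val - 1, by omega⟩, ⟨j.val, h'⟩, ?_, ?_⟩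
      · show j.val = j.val - 1 + 1
        omega
      · apply Fin.ext
        simp
    · right
      refine ⟨⟨n - 1, by omega⟩, ?_, ?_⟩
      · show n - 1 + 1 = n
        omega
      · apply Fin.ext
        have := j.isLt
        simp
        omega

end sums

/-! ### The moments -/

/-- The facts on `kmom`. -/
structure KFacts (n m N : ℕ) (x : Fin n → ℝ) : Prop where
  one : kmom n m x ∅ = 1
  compl : ∀ (S : Finset ((Fin n × Fin m) × Bool)) (u : Fin n × Fin m),
    kmom n m x (insert (u, true) S) + kmom n m x (insert (u, false) S) = kmom n m x S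
  bdd : ∀ S : Finset ((Fin n × Fin m) × Bool), S.card ≤ N → |kmom n m x S| ≤ 1
  psd : ∀ c : Finset ((Fin n × Fin m) × Bool) → ℝ, (∀ S, c S ≠ 0 → S.card ≤ N) →
    0 ≤ ∑ S, ∑ S', c S * c S' * kmom n m x (S ∪ S')
  rel : ∀ S : Finset ((Fin n × Fin m) × Bool), S.card < m → ∀ i : Fin n,
    ∑ k : Fin m, kmom n m x (insert ((i, k), true) S) = x i * kmom n m x S ∧
      ∑ k : Fin m, kmom n m x (insert ((i, k), false) S) = (m - x i) * kmom n m x S

theorem kmom_contra {n m : ℕ} {x : Fin n → ℝ} {S : Finset ((Fin n × Fin m) × Bool)}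
    {v : Fin n × Fin m} (h1 : (v, true) ∈ S) (h2 : (v, false) ∈ S) : kmom n m x S = 0 := by
  unfold kmom
  rw [if_pos ⟨v, h1, h2⟩]

theorem kmom_pairs {n m N : ℕ} {x : Fin n → ℝ} (h : KFacts n m N x)
    (S : Finset ((Fin n × Fin m) × Bool)) (hS : S.card + 1 < m) (i : Fin n) :
    ∑ k : Fin m, ∑ k' ∈ Finset.univ.filter (fun k' => k ≠ k'),
      kmom n m x (S ∪ {((i, k), true), ((i, k'), false)}) = x i * (m - x i) * kmom n m x S := by
  have h1 : ∀ k : Fin m, ∑ k' ∈ Finset.univ.filter (fun k' => k ≠ k'),
      kmom n m x (S ∪ {((i, k), true), ((i, k'), false)}) =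
      (m - x i) * kmom n m x (insert ((i, k), true) S) := by
    intro k
    have hc : (insert ((i, k), true) S).card < m :=
      lt_of_le_of_lt (Finset.card_insert_le _ _) hS
    rw [← (h.rel (insert ((i, k), true) S) hc i).2]
    rw [Finset.sum_filter]
    refine Finset.sum_congr rfl fun k' _ => ?_
    have he : S ∪ {((i, k), true), ((i, k'), false)} =
        insert ((i, k'), false) (insert ((i, k), true) S) := by
      ext l
      simp only [Finset.mem_union, Finset.mem_insert, Finset.mem_singleton]
      tauto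
    split_ifs with hk
    · rw [he]
    · have hk' : k = k' := not_not.mp hk
      subst hk'
      rw [kmom_contra (v := (i, k)) (by simp) (by simp)]
  rw [Finset.sum_congr rfl fun k _ => h1 k, ← Finset.mul_sum, (h.rel S (by omega) i).1]
  ring

theorem yv_pos (i : ℕ) : 0 < yv i := by
  unfold yv
  positivity

theorem yv_le (i : ℕ) : yv i ≤ 2⁻¹ := by
  unfold yv
  calc (2 : ℝ)⁻¹ ^ (2 ^ i) ≤ (2 : ℝ)⁻¹ ^ 1 :=
        pow_le_pow_of_le_one (by norm_num) (by norm_num) Nat.one_le_two_pow
    _ = 2⁻¹ := pow_one _

theorem yv_succ (i : ℕ) : yv (i + 1) = yv i ^ 2 := by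
  unfold yv
  rw [← pow_mul, pow_succ]

theorem chain_bounds (n μ N : ℕ) (hN : N + 3 ≤ μ) (i : Fin n) :
    (N : ℝ) ≤ (μ : ℝ) + yv i ∧ (N : ℝ) ≤ ((2 * μ : ℕ) : ℝ) - ((μ : ℝ) + yv i) := by
  have h1 := yv_pos i
  have h2 := yv_le i
  have h3 : (N : ℝ) + 3 ≤ μ := by exact_mod_cast hN
  constructor
  · linarith
  · push_cast
    linarith

theorem chain_mom_of (n μ N : ℕ) [NeZero n] (hN : N + 3 ≤ μ)
    (h : KFacts n (2 * μ) N fun i => (μ : ℝ) + yv i) :
    Mom (chain n μ) (thv n μ) N (kmom n (2 * μ) fun i => (μ : ℝ) + yv i) where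
  one := h.one
  compl := h.compl
  bdd := h.bdd
  psd := h.psd
  rel := by
    intro j S hS
    have hn : 0 < n := Nat.pos_of_ne_zero (NeZero.ne n)
    have hins : ∀ l : (Fin n × Fin (2 * μ)) × Bool, S ∪ {l} = insert l S := by
      intro l
      ext l'
      simp only [Finset.mem_union, Finset.mem_insert, Finset.mem_singleton]
      tauto
    rcases cases_gadget j with rfl | ⟨i, i', hi, rfl⟩ | ⟨i, hi, rfl⟩
    · rw [sum_first]
      have h1 : ∀ k : Fin (2 * μ), ∀ b : Bool,
          S ∪ (chain n μ).lits (.inl (k, b)) = insert (((0 : Fin n), k), true) S := by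
        intro k b
        rw [← hins]
        rfl
      simp only [h1]
      rw [Finset.sum_add_distrib, (h.rel S (by omega) 0).1]
      have h2 : thv n μ 0 = 2 * μ + 1 := by
        unfold thv tcnt
        rw [if_neg, if_pos rfl]
        · push_cast
          ring
        · intro h3
          have := congrArg Fin.val h3
          rw [Fin.val_zero, Fin.val_last] at this
          omega
      rw [h2]
      have h3 : yv ((0 : Fin n) : ℕ) = 2⁻¹ := by
        have : ((0 : Fin n) : ℕ) = 0 := Fin.val_zero n
        rw [this]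
        simp [yv]
      rw [h3]
      ring
    · rw [sum_next _ i i' hi]
      have h1 : ∀ k : Fin (2 * μ),
          S ∪ (chain n μ).lits (.inr (.inl (i', k))) = insert ((i', k), true) S := by
        intro k
        rw [← hins]
        rfl
      have h2 : ∀ k k' : Fin (2 * μ),
          S ∪ (chain n μ).lits (.inr (.inr (i, k, k'))) =
            S ∪ {((i, k), true), ((i, k'), false)} := by
        intro k k'
        rfl
      simp only [h1, h2]
      rw [(h.rel S (by omega) i').1, kmom_pairs h S (by omega) i]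
      have h3 : thv n μ i'.castSucc = μ * μ + μ := by
        unfold thv tcnt
        rw [if_neg, if_neg, if_neg]
        · push_cast
          ring
        · intro h3
          have := congrArg Fin.val h3
          have h4 := i'.isLt
          simp at this
          omega
        · intro h3
          have := congrArg Fin.val h3
          rw [Fin.val_castSucc, Fin.val_zero] at this
          omega
        · intro h3
          have := congrArg Fin.val h3
          have h4 := i'.isLt
          simp at this
          omega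
      rw [h3]
      have h4 : yv (i' : ℕ) = yv (i : ℕ) ^ 2 := by
        rw [hi, yv_succ]
      rw [h4]
      push_cast
      ring
    · rw [sum_last _ i hi]
      have h2 : ∀ k k' : Fin (2 * μ),
          S ∪ (chain n μ).lits (.inr (.inr (i, k, k'))) =
            S ∪ {((i, k), true), ((i, k'), false)} := by
        intro k k'
        rfl
      simp only [h2]
      rw [kmom_pairs h S (by omega) i]
      have h3 : thv n μ (Fin.last n) = μ * μ - yv n := by
        unfold thv
        rw [if_pos rfl]
      rw [h3]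
      have h4 : yv n = yv (i : ℕ) ^ 2 := by
        rw [← yv_succ, hi]
      rw [h4]
      push_cast
      ring

/-! ### The numbers of right tokens -/

theorem chain_cnt (n μ : ℕ) [NeZero n] (j : Fin (n + 1)) :
    (chain n μ).cnt j = tcnt n μ j ∧ |((chain n μ).cnt j : ℝ) - thv n μ j| ≤ yv n := by
  have hle : tcnt n μ j ≤ μ * μ + 2 * μ + 1 := by
    unfold tcnt
    split_ifs
    · nlinarith
    · nlinarith
    · nlinarith
  have h : (chain n μ).cnt j = tcnt n μ j := by
    unfold Dat.cnt
    have h1 : (chain n μ).Rs.filter (fun b => (chain n μ).cr b = j) =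
        (Finset.univ.filter fun b : Fin (μ * μ + 2 * μ + 1) => b.val < tcnt n μ j).image
          fun b => (j, b) := by
      ext b
      constructor
      · intro h
        have h1 := Finset.mem_filter.mp h
        have h2 : b.2.val < tcnt n μ b.1 := (Finset.mem_filter.mp h1.1).2
        have h3 : b.1 = j := h1.2
        rw [h3] at h2
        refine Finset.mem_image.mpr ⟨b.2, Finset.mem_filter.mpr ⟨Finset.mem_univ _, h2⟩, ?_⟩
        rw [← h3]
      · intro h
        obtain ⟨b', h1, h2⟩ := Finset.mem_image.mp h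
        subst h2
        exact Finset.mem_filter.mpr ⟨Finset.mem_filter.mpr ⟨Finset.mem_univ _,
          (Finset.mem_filter.mp h1).2⟩, rfl⟩
    rw [h1, Finset.card_image_of_injective _ (fun b b' hbb' => (Prod.mk.inj hbb').2)]
    have h2 : (Finset.univ.filter fun b : Fin (μ * μ + 2 * μ + 1) => b.val < tcnt n μ j).card =
        (Finset.range (tcnt n μ j)).card := by
      refine Finset.card_bij (fun b _ => b.val) ?_ ?_ ?_
      · intro b hb
        simp only [Finset.mem_filter, Finset.mem_univ, true_and] at hb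
        exact Finset.mem_range.mpr hb
      · intro b _ b' _ hbb'
        exact Fin.ext hbb'
      · intro b hb
        rw [Finset.mem_range] at hb
        exact ⟨⟨b, by omega⟩, by simpa using hb, rfl⟩
    rw [h2, Finset.card_range]
  refine ⟨h, ?_⟩
  rw [h]
  unfold thv
  split_ifs with hj
  · subst hj
    have hn : 0 < n := Nat.pos_of_ne_zero (NeZero.ne n)
    have h1 : tcnt n μ (Fin.last n) = μ * μ := by
      unfold tcnt
      rw [if_neg, if_pos rfl]
      intro h3
      have := congrArg Fin.val h3
      simp at this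
      omega
    rw [h1]
    push_cast
    have : (μ : ℝ) * μ - (μ * μ - yv n) = yv n := by ring
    rw [this, abs_of_pos (yv_pos n)]
  · rw [sub_self, abs_zero]
    exact (yv_pos n).le

end Pool.Agent.T9h19.MB
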