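import Pool.Agent.T9h19.MB.Base

/-!
# Monomial-size versus bit-complexity on CNFs: definitions for the proof

Substitution of exclusive or, pseudo-expectations, systems of counting gadgets, the chain.
-/

set_option autoImplicit false

open MvPolynomial

namespace Pool.Agent.T9h19.MB

section
variable {V : Type} [Fintype V] [DecidableEq V]

/-- One of the clauses of the substitution `v ↦ (v, false) ⊕ (v, true)` into the clause `C`: for every
literal `(v, s)` of `C` it excludes the value `β v` of `(v, false)` together with the value of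
`(v, true)` for which `v` falsifies the literal. -/
def liftC (C : Cl V) (β : V → Bool) : Cl (V × Bool) :=
  C.biUnion fun l => {((l.1, false), !(β l.1)), ((l.1, true), !(xor (β l.1) (!l.2)))}

/-- The CNF `F` after the substitution `v ↦ (v, false) ⊕ (v, true)`. -/
def lift (F : Finset (Cl V)) : Finset (Cl (V × Bool)) :=
  (F ×ˢ (Finset.univ : Finset (V → Bool))).image fun q => liftC q.1 q.2

/-- The substituted variable `v` as a polynomial: the exclusive or of `(v, false)` and `(v, true)`. -/
noncomputable def lp (v : V) : Pol (V × Bool) :=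
  X ((v, false), true) * X ((v, true), false) + X ((v, false), false) * X ((v, true), true)

/-- The literals falsified by an assignment which falsifies the clause, as a conjunction. -/
def neg (C : Cl V) : Finset (V × Bool) := C.image fun l => (l.1, !l.2)

/-- A pseudo-expectation for `F`: `e S` is the pseudo-expectation of the conjunction of the literals
in `S`; it is nonnegative on squares of combinations of good conjunctions, up to `η`. -/
structure PE (F : Finset (Cl V)) (good : Finset (V × Bool) → Prop) (η : ℝ) where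
  e : Finset (V × Bool) → ℝ
  one : e ∅ = 1
  compl : ∀ (S : Finset (V × Bool)) (v : V), e (insert (v, true) S) + e (insert (v, false) S) = e S
  psd : ∀ c : Finset (V × Bool) → ℝ, (∀ S, c S ≠ 0 → good S) →
    0 ≤ ∑ S, ∑ S', c S * c S' * e (S ∪ S') + η * ∑ S, c S ^ 2
  ax : ∀ C ∈ F, ∀ S : Finset (V × Bool), good S → |e (S ∪ neg C)| ≤ η

/-- `p` is a combination `∑ t_C tr(C) + ∑ (u_v (x_v ^ 2 - x_v) + w_v (x_v + x̄_v - 1))` with at most `s`
monomials in the coefficients, which have degree at most `20`. -/
def Stat (F : Finset (Cl V)) (s : ℕ) (p : Pol V) : Prop :=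
  ∃ (t : Cl V → Pol V) (u w : V → Pol V),
    p = ∑ C ∈ F, t C * tr C + ∑ v, (u v * axB v + w v * axT v) ∧
    ∑ C ∈ F, msize (t C) + ∑ v, (msize (u v) + msize (w v)) ≤ s ∧
    (∀ C, (t C).totalDegree ≤ 20) ∧ ∀ v, (u v).totalDegree ≤ 20 ∧ (w v).totalDegree ≤ 20

end

/-! ### Systems of counting gadgets -/

section
variable {U L R J : Type} [Fintype U] [DecidableEq U] [Fintype L] [DecidableEq L]
  [Fintype R] [DecidableEq R] [Fintype J] [DecidableEq J]

/-- A system of gadgets. `U`: the basic variables. Gadget `j` matches the active left tokens `a ∈ Ls`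
of colour `j` with the right tokens `b ∈ Rs` of colour `j`; the token `a` is active if `u` holds
(`act a = (u, none)`) or if `u ∧ ¬ u'` holds (`act a = (u, some u')`). -/
structure Dat (U L R J : Type) where
  cl : L → J
  cr : R → J
  Ls : Finset L
  Rs : Finset R
  act : L → U × Option U
  hne : ∀ a ∈ Ls, (act a).2 ≠ some (act a).1

/-- The literals which make the token `a` active. -/
def Dat.lits (D : Dat U L R J) (a : L) : Finset (U × Bool) :=
  match (D.act a).2 with
  | none => {((D.act a).1, true)}
  | some u' => {((D.act a).1, true), (u', false)}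

/-- The pair may be matched. -/
def Dat.ok (D : Dat U L R J) (a : L) (b : R) : Prop := a ∈ D.Ls ∧ b ∈ D.Rs ∧ D.cl a = D.cr b

instance (D : Dat U L R J) (a : L) (b : R) : Decidable (D.ok a b) := by
  unfold Dat.ok; infer_instance

/-- A partial matching between tokens of equal colours. -/
def Dat.Mat (D : Dat U L R J) (P : Finset (L × R)) : Prop :=
  (∀ p ∈ P, D.cl p.1 = D.cr p.2) ∧ ∀ p ∈ P, ∀ q ∈ P, (p.1 = q.1 ↔ p.2 = q.2)

instance (D : Dat U L R J) (P : Finset (L × R)) : Decidable (D.Mat P) := by
  unfold Dat.Mat; infer_instance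

/-- The falling factorial `x (x - 1) ⋯ (x - k + 1)`. -/
def ff (x : ℝ) (k : ℕ) : ℝ := ∏ i ∈ Finset.range k, (x - i)

/-- The weight of a matching: the product over the colours `j` of `1 / (θ_j)_(number of pairs)`. -/
noncomputable def Dat.wt (D : Dat U L R J) (θ : J → ℝ) (P : Finset (L × R)) : ℝ :=
  if D.Mat P then ∏ j, (ff (θ j) (P.filter fun p => D.cl p.1 = j).card)⁻¹ else 0

/-- The literals which make all matched left tokens active. -/
def Dat.rows (D : Dat U L R J) (P : Finset (L × R)) : Finset (U × Bool) :=
  P.biUnion fun p => D.lits p.1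

/-- The number of right tokens of colour `j`. -/
def Dat.cnt (D : Dat U L R J) (j : J) : ℕ := (D.Rs.filter fun b => D.cr b = j).card

/-- Pseudo-moments `ℓ` of the basic variables for which gadget `j` has `θ j` active left tokens, for
conjunctions of at most `N` literals. -/
structure Mom (D : Dat U L R J) (θ : J → ℝ) (N : ℕ) (ℓ : Finset (U × Bool) → ℝ) : Prop where
  one : ℓ ∅ = 1
  compl : ∀ (S : Finset (U × Bool)) (u : U), ℓ (insert (u, true) S) + ℓ (insert (u, false) S) = ℓ S
  bdd : ∀ S, S.card ≤ N → |ℓ S| ≤ 1
  psd : ∀ c : Finset (U × Bool) → ℝ, (∀ S, c S ≠ 0 → S.card ≤ N) →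
    0 ≤ ∑ S, ∑ S', c S * c S' * ℓ (S ∪ S')
  rel : ∀ j, ∀ S : Finset (U × Bool), S.card ≤ N →
    ∑ a ∈ D.Ls.filter (fun a => D.cl a = j), ℓ (S ∪ D.lits a) = θ j * ℓ S

/-- The size of the system. -/
def sz (U L R : Type) [Fintype U] [Fintype L] [Fintype R] : ℕ :=
  Fintype.card U + Fintype.card L + Fintype.card R + Fintype.card L * Fintype.card R + 1

/-- The variables of the CNF: basic variables; activity of the left tokens; the pairs; the prefix
variables of the columns `b` and of the rows `a`; the constant `true`. -/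
inductive Var (U L R : Type) [Fintype L] [Fintype R]
  | u (x : U)
  | act (a : L)
  | w (a : L) (b : R)
  | col (b : R) (j : Fin (Fintype.card L + 1))
  | row (a : L) (j : Fin (Fintype.card R + 1))
  | one
  deriving DecidableEq, Fintype

/-- The clause which excludes the given values. -/
def forb {V : Type} [DecidableEq V] (s : List (V × Bool)) : Cl V :=
  (s.map fun l => (l.1, !l.2)).toFinset

/-- `z = x + y` -/
def ADD {V : Type} [DecidableEq V] (x y z : V) : Finset (Cl V) :=
  {forb [(x, true), (y, true), (z, true)], forb [(x, true), (y, true), (z, false)],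
    forb [(x, true), (y, false), (z, false)], forb [(x, false), (y, true), (z, false)],
    forb [(x, false), (y, false), (z, true)]}

/-- `x = y` -/
def EQ {V : Type} [DecidableEq V] (x y : V) : Finset (Cl V) :=
  {forb [(x, true), (y, false)], forb [(x, false), (y, true)]}

/-- `z = (x ∧ ¬ y)` -/
def ANDN {V : Type} [DecidableEq V] (x y z : V) : Finset (Cl V) :=
  {forb [(x, false), (y, false), (z, true)], forb [(x, false), (y, true), (z, true)],
    forb [(x, true), (y, true), (z, true)], forb [(x, true), (y, false), (z, false)]}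

/-- An enumeration of a finite type. -/
noncomputable def en (A : Type) [Fintype A] (i : Fin (Fintype.card A)) : A :=
  (Fintype.equivFin A).symm i

/-- The CNF of the system. -/
noncomputable def Dat.cnf (D : Dat U L R J) : Finset (Cl (Var U L R)) :=
  {forb [(Var.one, false)]} ∪
  ((Finset.univ.filter fun p : L × R => ¬ D.ok p.1 p.2).image fun p =>
    forb [(Var.w p.1 p.2, true)]) ∪
  (D.Rs.biUnion fun b => {forb [(Var.col b 0, true)]} ∪
    (Finset.univ.biUnion fun i : Fin (Fintype.card L) =>
      ADD (Var.col b i.castSucc) (Var.w (en L i) b) (Var.col b i.succ)) ∪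
    EQ (Var.col b (Fin.last _)) Var.one) ∪
  (D.Ls.biUnion fun a => {forb [(Var.row a 0, true)]} ∪
    (Finset.univ.biUnion fun i : Fin (Fintype.card R) =>
      ADD (Var.row a i.castSucc) (Var.w a (en R i)) (Var.row a i.succ)) ∪
    EQ (Var.row a (Fin.last _)) (Var.act a)) ∪
  (D.Ls.biUnion fun a => match (D.act a).2 with
    | none => EQ (Var.act a) (Var.u (D.act a).1)
    | some u' => ANDN (Var.u (D.act a).1) (Var.u u') (Var.act a))

end

/-! ### The chain of gadgets -/

/-- Left tokens of the chain with `n` levels of `2 μ` basic variables: two copies of `u_(0,k)` (gadget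
`0`); the token of `u_(i,k)` in gadget `i` (`i ≥ 1`); the tokens of `u_(i,k) ∧ ¬ u_(i,k')` in gadget
`i + 1` (`k ≠ k'`). -/
abbrev TL (n μ : ℕ) := (Fin (2 * μ) × Bool) ⊕ ((Fin n × Fin (2 * μ)) ⊕
  (Fin n × Fin (2 * μ) × Fin (2 * μ)))

/-- Right tokens. -/
abbrev TR (n μ : ℕ) := Fin (n + 1) × Fin (μ * μ + 2 * μ + 1)

/-- The number of right tokens of gadget `g`. -/
def tcnt (n μ : ℕ) (g : Fin (n + 1)) : ℕ :=
  if g = 0 then 2 * μ + 1 else if g = Fin.last n then μ * μ else μ * μ + μ

/-- The tokens in use. -/
def validL {n μ : ℕ} [NeZero n] : TL n μ → Bool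
  | .inl _ => true
  | .inr (.inl p) => decide (p.1 ≠ 0)
  | .inr (.inr p) => decide (p.2.1 ≠ p.2.2)

/-- The chain: gadget `0` forces `2 S_0 = 2 μ + 1`, gadget `i + 1` forces
`S_(i+1) + S_i (2 μ - S_i) = μ ^ 2 + μ` for `i + 1 < n` and `S_i (2 μ - S_i) = μ ^ 2` for
`i + 1 = n`, where `S_i` is the number of the true variables of level `i`. -/
def chain (n μ : ℕ) [NeZero n] : Dat (Fin n × Fin (2 * μ)) (TL n μ) (TR n μ) (Fin (n + 1)) where
  cl := fun a => match a with
    | .inl _ => 0
    | .inr (.inl p) => p.1.castSucc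
    | .inr (.inr p) => p.1.succ
  cr := fun b => b.1
  Ls := Finset.univ.filter fun a => validL a = true
  Rs := Finset.univ.filter fun b => b.2.val < tcnt n μ b.1
  act := fun a => match a with
    | .inl p => ((0, p.1), none)
    | .inr (.inl p) => (p, none)
    | .inr (.inr p) => ((p.1, p.2.1), some (p.1, p.2.2))
  hne := by
    intro a ha h
    rcases a with p | p | p
    · simp at h
    · simp at h
    · have h1 := (Finset.mem_filter.mp ha).2
      have h2 : p.2.1 ≠ p.2.2 := of_decide_eq_true h1
      simp only [Option.some.injEq, Prod.mk.injEq, true_and] at h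
      exact h2 h.symm

/-- The virtual deviation of level `i`: `y_i = 2 ^ (-2 ^ i)`. -/
noncomputable def yv (i : ℕ) : ℝ := (2 : ℝ)⁻¹ ^ (2 ^ i)

/-- The virtual number of active left tokens of gadget `g`: the number of right tokens, except for the
last gadget, where it is `μ ^ 2 - y_(n-1) ^ 2`. -/
noncomputable def thv (n μ : ℕ) (g : Fin (n + 1)) : ℝ :=
  if g = Fin.last n then (μ : ℝ) * μ - yv n else tcnt n μ g

/-- The pseudo-moments of independent virtual subsets: in level `i` a virtual `x_i`-element subset of an
`m`-element set. -/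
noncomputable def kmom (n m : ℕ) (x : Fin n → ℝ) (S : Finset ((Fin n × Fin m) × Bool)) : ℝ :=
  if ∃ v, (v, true) ∈ S ∧ (v, false) ∈ S then 0 else
    ∏ i, ff (x i) (S.filter fun l => l.1.1 = i ∧ l.2 = true).card *
      ff (m - x i) (S.filter fun l => l.1.1 = i ∧ l.2 = false).card /
      ff m (S.filter fun l => l.1.1 = i).card

/-- The deviation of level `i` from `μ`, as a polynomial. -/
noncomputable def Yp (n μ : ℕ) (i : Fin n) :
    Pol (Var (Fin n × Fin (2 * μ)) (TL n μ) (TR n μ) × Bool) :=
  ∑ k : Fin (2 * μ), lp (Var.u (i, k)) - C (μ : ℚ)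

end Pool.Agent.T9h19.MB
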