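import Pool.Agent.T9h19.MB.Defs

/-!
# The clauses and variables of the CNF, the supports of the monomials of a refutation
-/

set_option autoImplicit false
set_option linter.unusedSectionVars false

open MvPolynomial

namespace Pool.Agent.T9h19.MB

section
variable {V : Type} [DecidableEq V]

theorem forb_card (s : List (V × Bool)) : (forb s).card ≤ s.length := by
  unfold forb
  refine (List.toFinset_card_le _).trans ?_
  rw [List.length_map]

theorem forb_nc (s : List (V × Bool)) (h : (s.map Prod.fst).Nodup) (v : V) :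
    ¬ ((v, true) ∈ forb s ∧ (v, false) ∈ forb s) := by
  rintro ⟨h1, h2⟩
  unfold forb at h1 h2
  rw [List.mem_toFinset, List.mem_map] at h1 h2
  obtain ⟨a, ha, ha'⟩ := h1
  obtain ⟨b, hb, hb'⟩ := h2
  have e1 : a.1 = v := (Prod.mk.inj ha').1
  have e2 : b.1 = v := (Prod.mk.inj hb').1
  have e3 := List.inj_on_of_nodup_map h ha hb (e1.trans e2.symm)
  subst e3
  have e4 := (Prod.mk.inj ha').2
  have e5 := (Prod.mk.inj hb').2
  rw [e4] at e5
  exact absurd e5 (by decide)

/-- Not contradictory, at most three literals. -/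
def Nice (C : Cl V) : Prop := (∀ v, ¬ ((v, true) ∈ C ∧ (v, false) ∈ C)) ∧ C.card ≤ 3

theorem nice1 (x : V) (a : Bool) : Nice (forb [(x, a)]) :=
  ⟨fun v => forb_nc _ (by simp) v, (forb_card _).trans (by simp)⟩

theorem nice2 {x y : V} (a b : Bool) (hxy : x ≠ y) : Nice (forb [(x, a), (y, b)]) :=
  ⟨fun v => forb_nc _ (by simp [hxy]) v, (forb_card _).trans (by simp)⟩

theorem nice3 {x y z : V} (a b c : Bool) (hxy : x ≠ y) (hxz : x ≠ z) (hyz : y ≠ z) :
    Nice (forb [(x, a), (y, b), (z, c)]) :=
  ⟨fun v => forb_nc _ (by simp [hxy, hxz, hyz]) v, (forb_card _).trans (by simp)⟩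

theorem niceADD {x y z : V} (hxy : x ≠ y) (hxz : x ≠ z) (hyz : y ≠ z) {C : Cl V}
    (h : C ∈ ADD x y z) : Nice C := by
  unfold ADD at h
  simp only [Finset.mem_insert, Finset.mem_singleton] at h
  rcases h with rfl | rfl | rfl | rfl | rfl <;> exact nice3 _ _ _ hxy hxz hyz

theorem niceEQ {x y : V} (hxy : x ≠ y) {C : Cl V} (h : C ∈ EQ x y) : Nice C := by
  unfold EQ at h
  simp only [Finset.mem_insert, Finset.mem_singleton] at h
  rcases h with rfl | rfl <;> exact nice2 _ _ hxy

theorem niceANDN {x y z : V} (hxy : x ≠ y) (hxz : x ≠ z) (hyz : y ≠ z) {C : Cl V}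
    (h : C ∈ ANDN x y z) : Nice C := by
  unfold ANDN at h
  simp only [Finset.mem_insert, Finset.mem_singleton] at h
  rcases h with rfl | rfl | rfl | rfl <;> exact nice3 _ _ _ hxy hxz hyz

end

section
variable {U L R J : Type} [Fintype U] [DecidableEq U] [Fintype L] [DecidableEq L]
  [Fintype R] [DecidableEq R] [Fintype J] [DecidableEq J]

theorem cnf_nc (D : Dat U L R J) : ∀ C ∈ D.cnf,
    (∀ v, ¬ ((v, true) ∈ C ∧ (v, false) ∈ C)) ∧ C.card ≤ 3 := by
  intro C hC
  show Nice C
  unfold Dat.cnf at hC
  rw [Finset.mem_union, Finset.mem_union, Finset.mem_union, Finset.mem_union] at hC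
  rcases hC with (((h | h) | h) | h) | h
  · rw [Finset.mem_singleton] at h
    subst h
    exact nice1 _ _
  · obtain ⟨p, _, rfl⟩ := Finset.mem_image.mp h
    exact nice1 _ _
  · obtain ⟨b, _, h⟩ := Finset.mem_biUnion.mp h
    rw [Finset.mem_union, Finset.mem_union] at h
    rcases h with (h | h) | h
    · rw [Finset.mem_singleton] at h
      subst h
      exact nice1 _ _
    · obtain ⟨i, _, h⟩ := Finset.mem_biUnion.mp h
      refine niceADD (by simp) ?_ (by simp) h
      intro he
      have := (Var.col.inj he).2
      have := congrArg Fin.val this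
      simp at this
    · exact niceEQ (by simp) h
  · obtain ⟨a, _, h⟩ := Finset.mem_biUnion.mp h
    rw [Finset.mem_union, Finset.mem_union] at h
    rcases h with (h | h) | h
    · rw [Finset.mem_singleton] at h
      subst h
      exact nice1 _ _
    · obtain ⟨i, _, h⟩ := Finset.mem_biUnion.mp h
      refine niceADD (by simp) ?_ (by simp) h
      intro he
      have := (Var.row.inj he).2
      have := congrArg Fin.val this
      simp at this
    · exact niceEQ (by simp) h
  · obtain ⟨a, ha, h⟩ := Finset.mem_biUnion.mp h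
    have hne := D.hne a ha
    cases hu : (D.act a).2 with
    | none =>
      rw [hu] at h
      exact niceEQ (by simp) h
    | some u' =>
      rw [hu] at h hne
      refine niceANDN ?_ (by simp) (by simp) h
      intro he
      apply hne
      rw [Var.u.inj he]

theorem card_var : Fintype.card (Var U L R) ≤ 3 * sz U L R := by
  let f : Var U L R → U ⊕ (L ⊕ ((L × R) ⊕ ((R × Fin (Fintype.card L + 1)) ⊕
      ((L × Fin (Fintype.card R + 1)) ⊕ Unit)))) := fun v => match v with
    | .u x => .inl x
    | .act a => .inr (.inl a)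
    | .w a b => .inr (.inr (.inl (a, b)))
    | .col b j => .inr (.inr (.inr (.inl (b, j))))
    | .row a j => .inr (.inr (.inr (.inr (.inl (a, j)))))
    | .one => .inr (.inr (.inr (.inr (.inr ()))))
  have hf : Function.Injective f := by
    intro v v' h
    cases v <;> cases v' <;> simp [f] at h <;> simp [h]
  have h1 := Fintype.card_le_of_injective f hf
  simp only [Fintype.card_sum, Fintype.card_prod, Fintype.card_fin, Fintype.card_unit] at h1
  unfold sz
  nlinarith

end

section
variable {V : Type} [Fintype V] [DecidableEq V]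

theorem liftC_card (C : Cl V) (hC : C.card ≤ 3) (β : V → Bool) : (liftC C β).card ≤ 6 := by
  unfold liftC
  refine Finset.card_biUnion_le.trans ?_
  calc _ ≤ ∑ _l ∈ C, 2 := Finset.sum_le_sum fun l _ => Finset.card_le_two
    _ ≤ 6 := by
      rw [Finset.sum_const, smul_eq_mul]
      omega

theorem card_small {A : Type} [Fintype A] [DecidableEq A] (G : Finset (Finset A)) (k : ℕ)
    (hG : ∀ C ∈ G, C.card ≤ k) : G.card ≤ (Fintype.card A + 1) ^ k := by
  have h : G ⊆ (Finset.univ : Finset (Fin k → Option A)).image
      fun g => Finset.univ.filter fun a => ∃ i, g i = some a := by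
    intro C hC
    refine Finset.mem_image.mpr ⟨fun i => if h : i.val < C.card then
      some (C.equivFin.symm ⟨i, h⟩).1 else none, Finset.mem_univ _, ?_⟩
    ext a
    simp only [Finset.mem_filter, Finset.mem_univ, true_and]
    constructor
    · rintro ⟨i, hi⟩
      by_cases h : i.val < C.card
      · rw [dif_pos h, Option.some.injEq] at hi
        rw [← hi]
        exact (C.equivFin.symm ⟨i, h⟩).2
      · rw [dif_neg h] at hi
        exact absurd hi (by simp)
    · intro ha
      refine ⟨⟨(C.equivFin ⟨a, ha⟩).val, lt_of_lt_of_le (C.equivFin ⟨a, ha⟩).isLt (hG C hC)⟩, ?_⟩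
      rw [dif_pos (C.equivFin ⟨a, ha⟩).isLt]
      simp
  calc G.card ≤ ((Finset.univ : Finset (Fin k → Option A)).image
      fun g => Finset.univ.filter fun a => ∃ i, g i = some a).card := Finset.card_le_card h
    _ ≤ (Finset.univ : Finset (Fin k → Option A)).card := Finset.card_image_le
    _ = (Fintype.card A + 1) ^ k := by
      rw [Finset.card_univ, Fintype.card_fun, Fintype.card_option, Fintype.card_fin]

theorem lift_card (F : Finset (Cl V)) (hF : ∀ C ∈ F, C.card ≤ 3) :
    (lift F).card ≤ (4 * Fintype.card V + 1) ^ 6 := by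
  have h := card_small (lift F) 6 (by
    intro C hC
    obtain ⟨q, hq, rfl⟩ := Finset.mem_image.mp hC
    exact liftC_card q.1 (hF _ (Finset.mem_product.mp hq).1) q.2)
  have h2 : Fintype.card ((V × Bool) × Bool) = 4 * Fintype.card V := by
    rw [Fintype.card_prod, Fintype.card_prod, Fintype.card_bool]
    ring
  rwa [h2] at h

theorem one_le_cbits (q : ℚ) : 1 ≤ cbits q := by
  unfold cbits
  have h : 0 < q.den := q.den_pos
  have h1 : 0 < Nat.size q.den := Nat.size_pos.mpr h
  omega

theorem msize_le_pbits (p : Pol V) : msize p ≤ pbits p := by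
  unfold msize pbits
  calc p.support.card = ∑ _m ∈ p.support, 1 := by simp
    _ ≤ _ := Finset.sum_le_sum fun m _ => one_le_cbits _

theorem supp_le (p : Pol V) : (p.support.image fun m => m.support).card ≤ pbits p :=
  Finset.card_image_le.trans (msize_le_pbits p)

theorem pcr_supp {G : Finset (Cl V)} (π : PCR G) :
    ((Finset.range π.len).biUnion fun i => (π.p i).support.image fun m => m.support).card ≤
      π.bits :=
  Finset.card_biUnion_le.trans (Finset.sum_le_sum fun i _ => supp_le _)

theorem sos_supp {G : Finset (Cl V)} (π : SOS G) :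
    ((Finset.univ.biUnion fun k => (π.r k).support.image fun m => m.support) ∪
      (G.biUnion fun C => (π.t C).support.image fun m => m.support)).card ≤ π.bits := by
  have h1 : (Finset.univ.biUnion fun k => (π.r k).support.image fun m => m.support).card ≤
      ∑ k, pbits (π.r k) :=
    Finset.card_biUnion_le.trans (Finset.sum_le_sum fun i _ => supp_le _)
  have h2 : (G.biUnion fun C => (π.t C).support.image fun m => m.support).card ≤
      ∑ C ∈ G, pbits (π.t C) :=
    Finset.card_biUnion_le.trans (Finset.sum_le_sum fun i _ => supp_le _)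
  refine (Finset.card_union_le _ _).trans ?_
  unfold SOS.bits
  omega

end

end Pool.Agent.T9h19.MB
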