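import Pool.Agent.T9h19.MB.Lev
import Pool.Agent.T9h58.MB.Km3
import Pool.Agent.T9h65.MB.SosUp
import Pool.Agent.T9h65.MB.PcrUp
import Pool.Agent.T9h71.MB.Lower
import Pool.Agent.T9h71.MB.Pcr
import Pool.Agent.T9h85.MB.C4
import Pool.Agent.T9h96.MB.Lift
import Pool.Agent.T9h67.MB.E
import Pool.Agent.T9h19.MB.Sizes
import Pool.Agent.T9h46.MB.C3

/-!
# The final assembly
-/

set_option autoImplicit false
set_option linter.unusedSectionVars false
set_option synthInstance.maxSize 2000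

open MvPolynomial

namespace Pool.Agent.T9h19.MB

open Pool.Agent.T9h58.MB (kmom_one kmom_compl kmom_bdd kmom_psd kmom_rel)
open Pool.Agent.T9h65.MB (sos_upper pcr_upper)
open Pool.Agent.T9h71.MB (sos_lower pcr_lower)
open Pool.Agent.T9h96.MB (lift_pe)
open Pool.Agent.T9h67.MB (Yp_bd)

/-- The pseudo-expectation for the CNF of the system. -/
theorem exists_pe {U L R J : Type} [Fintype U] [DecidableEq U] [Fintype L] [DecidableEq L]
    [Fintype R] [DecidableEq R] [Fintype J] [DecidableEq J] (D : Dat U L R J) (θ : J → ℝ)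
    (ℓ : Finset (U × Bool) → ℝ) (N d : ℕ)
    (hN : 20 * (d + 4) ≤ N) (hm : Mom D θ N ℓ) (hθ : ∀ j, (4 * d + 20 : ℝ) ≤ θ j)
    (δ : ℝ) (hδ0 : 0 < δ) (hδ1 : δ ≤ 1) (hT : ∀ j, |(D.cnt j : ℝ) - θ j| ≤ δ) :
    Nonempty (PE D.cnf (fun S => S.card ≤ d) (δ * 2 ^ (1000 * (d + 1) * sz U L R))) :=
  Pool.Agent.T9h85.MB.exists_pe D θ ℓ N d hN hm hθ δ hδ0 hδ1 hT (fun c hc =>
    Pool.Agent.T9h46.MB.gadget_psd D θ ℓ N d (by omega) hm
      (fun j => (by linarith [hθ j] : (4 * d + 4 : ℝ) ≤ θ j)) δ hδ0.le hδ1 hT c hc)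

/-! ### Arithmetic -/

theorem pow40 (n : ℕ) (hn : 2000 ≤ n) : n ^ 40 ≤ 2 ^ n := by
  induction n, hn using Nat.le_induction with
  | base =>
    calc (2000 : ℕ) ^ 40 ≤ (2 ^ 11) ^ 40 := Nat.pow_le_pow_left (by norm_num) 40
      _ = 2 ^ 440 := by rw [← pow_mul]
      _ ≤ 2 ^ 2000 := Nat.pow_le_pow_right (by norm_num) (by norm_num)
  | succ n hn ih =>
    have h1 : (n + 1) * 2000 ≤ 2001 * n := by omega
    have h2 : ((n + 1) * 2000) ^ 40 ≤ (2001 * n) ^ 40 := Nat.pow_le_pow_left h1 40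
    rw [mul_pow, mul_pow] at h2
    have h3 : (2001 : ℕ) ^ 40 ≤ 2 * 2000 ^ 40 := by norm_num
    have h4 : (n + 1) ^ 40 * 2000 ^ 40 ≤ (2 * n ^ 40) * 2000 ^ 40 := by
      calc (n + 1) ^ 40 * 2000 ^ 40 ≤ 2001 ^ 40 * n ^ 40 := h2
        _ ≤ (2 * 2000 ^ 40) * n ^ 40 := Nat.mul_le_mul_right _ h3
        _ = (2 * n ^ 40) * 2000 ^ 40 := by ring
    have h5 : (n + 1) ^ 40 ≤ 2 * n ^ 40 :=
      Nat.le_of_mul_le_mul_right h4 (by positivity)
    calc (n + 1) ^ 40 ≤ 2 * n ^ 40 := h5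
      _ ≤ 2 * 2 ^ n := Nat.mul_le_mul_left _ ih
      _ = 2 ^ (n + 1) := by ring

theorem powsmall (n a : ℕ) (hn : 2000 ≤ n) (ha : a ≤ 40) : n ^ a ≤ 2 ^ n :=
  (Nat.pow_le_pow_right (by omega) ha).trans (pow40 n hn)

theorem csz_le (n : ℕ) (hn : 1 ≤ n) : csz (10 * n) (300 * n) ≤ 10 ^ 13 * n ^ 6 := by
  have h : csz (10 * n) (300 * n) = 10 * n * (2 * (300 * n)) +
      (2 * (300 * n) * 2 + (10 * n * (2 * (300 * n)) +
        10 * n * (2 * (300 * n) * (2 * (300 * n))))) +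
      (10 * n + 1) * (300 * n * (300 * n) + 2 * (300 * n) + 1) +
      (2 * (300 * n) * 2 + (10 * n * (2 * (300 * n)) +
        10 * n * (2 * (300 * n) * (2 * (300 * n))))) *
      ((10 * n + 1) * (300 * n * (300 * n) + 2 * (300 * n) + 1)) + 1 := by
    unfold csz sz
    simp [TL, TR, Fintype.card_sum, Fintype.card_prod]
  rw [h]
  have p1 : n ≤ n ^ 3 := by
    calc n = n ^ 1 := (pow_one n).symm
      _ ≤ n ^ 3 := Nat.pow_le_pow_right hn (by norm_num)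
  have p2 : n ^ 2 ≤ n ^ 3 := Nat.pow_le_pow_right hn (by norm_num)
  have p3 : 1 ≤ n ^ 3 := Nat.one_le_pow _ _ hn
  have p4 : n ≤ n ^ 2 := by
    calc n = n ^ 1 := (pow_one n).symm
      _ ≤ n ^ 2 := Nat.pow_le_pow_right hn (by norm_num)
  have p5 : 1 ≤ n ^ 2 := Nat.one_le_pow _ _ hn
  have q1 : 10 * n * (2 * (300 * n)) ≤ 6000 * n ^ 3 := by
    calc 10 * n * (2 * (300 * n)) = 6000 * n ^ 2 := by ring
      _ ≤ 6000 * n ^ 3 := by omega
  have q2 : 2 * (300 * n) * 2 + (10 * n * (2 * (300 * n)) +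
        10 * n * (2 * (300 * n) * (2 * (300 * n)))) ≤ 3607200 * n ^ 3 := by
    calc 2 * (300 * n) * 2 + (10 * n * (2 * (300 * n)) +
        10 * n * (2 * (300 * n) * (2 * (300 * n)))) = 1200 * n + 6000 * n ^ 2 +
          3600000 * n ^ 3 := by ring
      _ ≤ 3607200 * n ^ 3 := by omega
  have q3 : (10 * n + 1) * (300 * n * (300 * n) + 2 * (300 * n) + 1) ≤ 996611 * n ^ 3 := by
    have r1 : 10 * n + 1 ≤ 11 * n := by omega
    have r2 : 300 * n * (300 * n) + 2 * (300 * n) + 1 ≤ 90601 * n ^ 2 := by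
      calc 300 * n * (300 * n) + 2 * (300 * n) + 1 = 90000 * n ^ 2 + 600 * n + 1 := by ring
        _ ≤ 90601 * n ^ 2 := by omega
    calc (10 * n + 1) * (300 * n * (300 * n) + 2 * (300 * n) + 1) ≤ (11 * n) * (90601 * n ^ 2) :=
          Nat.mul_le_mul r1 r2
      _ = 996611 * n ^ 3 := by ring
  have q4 := Nat.mul_le_mul q2 q3
  have q5 : 3607200 * n ^ 3 * (996611 * n ^ 3) = 3594975199200 * n ^ 6 := by ring
  have p6 : n ^ 3 ≤ n ^ 6 := Nat.pow_le_pow_right hn (by norm_num)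
  have p7 : 1 ≤ n ^ 6 := Nat.one_le_pow _ _ hn
  rw [q5] at q4
  omega

/-! ### The levels -/

theorem exists_Y (n μ : ℕ) [NeZero n] : ∃ Y : ℕ → Pol (Var (Fin n × Fin (2 * μ)) (TL n μ)
    (TR n μ) × Bool), (∀ i < n, msize (Y i) ≤ 10 ^ 8 * (csz n μ) ^ 2 ∧ (Y i).totalDegree ≤ 20) ∧
    Stat (lift (chain n μ).cnf) (10 ^ 8 * (csz n μ) ^ 2) (2 * Y 0 - 1) ∧
    (∀ i, i + 1 < n → Stat (lift (chain n μ).cnf) (10 ^ 8 * (csz n μ) ^ 2)
      (Y (i + 1) - Y i ^ 2)) ∧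
    Stat (lift (chain n μ).cnf) (10 ^ 8 * (csz n μ) ^ 2) (Y (n - 1) ^ 2) := by
  have hn : 0 < n := Nat.pos_of_ne_zero (NeZero.ne n)
  refine ⟨fun i => if h : i < n then Yp n μ ⟨i, h⟩ else 0, ?_, ?_, ?_, ?_⟩
  · intro i hi
    simp only [hi, dif_pos]
    obtain ⟨h1, h2⟩ := Yp_bd n μ ⟨i, hi⟩
    refine ⟨h1.trans ?_, h2⟩
    have h3 := csz_ge (n := n) (μ := μ) hn
    have h4 : csz n μ ≤ (csz n μ) ^ 2 := by
      have : 1 ≤ csz n μ := by omega
      nlinarith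
    omega
  · simp only [hn, dif_pos]
    have h0 : (⟨0, hn⟩ : Fin n) = 0 := Fin.ext (by rw [Fin.val_zero])
    rw [h0]
    exact stat_first n μ
  · intro i hi
    have hi' : i < n := by omega
    simp only [hi, hi', dif_pos]
    exact stat_next n μ ⟨i, hi'⟩ ⟨i + 1, hi⟩ rfl
  · have hi : n - 1 < n := by omega
    simp only [hi, dif_pos]
    exact stat_last n μ ⟨n - 1, hi⟩ (by show n - 1 + 1 = n; omega)

/-! ### The sizes -/

section sizes
variable (n : ℕ) (hn : 2000 ≤ n)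

/-- The CNF. -/
noncomputable def cnfA (n : ℕ) [NeZero (10 * n)] : Finset (Cl (Var (Fin (10 * n) × Fin (2 * (300 * n)))
    (TL (10 * n) (300 * n)) (TR (10 * n) (300 * n)))) := (chain (10 * n) (300 * n)).cnf

theorem card_V : Fintype.card (Var (Fin (10 * n) × Fin (2 * (300 * n)))
    (TL (10 * n) (300 * n)) (TR (10 * n) (300 * n))) ≤ 3 * csz (10 * n) (300 * n) := card_var

theorem card_G [NeZero (10 * n)] (hn : 2000 ≤ n) :
    (lift (cnfA n)).card ≤ 10 ^ 85 * n ^ 36 := by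
  refine (lift_card (cnfA n) fun C hC => (cnf_nc _ C hC).2).trans ?_
  have h1 := card_V n
  have h2 := csz_le n (by omega)
  have h3 : 1 ≤ n ^ 6 := Nat.one_le_pow _ _ (by omega)
  have h4 : 4 * Fintype.card (Var (Fin (10 * n) × Fin (2 * (300 * n)))
    (TL (10 * n) (300 * n)) (TR (10 * n) (300 * n))) + 1 ≤ 121 * 10 ^ 12 * n ^ 6 := by
    omega
  calc (4 * Fintype.card (Var (Fin (10 * n) × Fin (2 * (300 * n)))
    (TL (10 * n) (300 * n)) (TR (10 * n) (300 * n))) + 1) ^ 6 ≤ (121 * 10 ^ 12 * n ^ 6) ^ 6 :=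
        Nat.pow_le_pow_left h4 6
    _ = (121 * 10 ^ 12) ^ 6 * n ^ 36 := by ring
    _ ≤ 10 ^ 85 * n ^ 36 := Nat.mul_le_mul_right _ (by norm_num)

theorem width_G [NeZero (10 * n)] : ∀ C ∈ lift (cnfA n), C.card ≤ 6 := by
  intro C hC
  obtain ⟨q, hq, rfl⟩ := Finset.mem_image.mp hC
  exact liftC_card q.1 (cnf_nc _ q.1 (Finset.mem_product.mp hq).1).2 q.2

theorem total_le [NeZero (10 * n)] (hn : 2000 ≤ n) :
    10 * n + 10 ^ 8 * (csz (10 * n) (300 * n)) ^ 2 + (lift (cnfA n)).card +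
      Fintype.card (Var (Fin (10 * n) × Fin (2 * (300 * n)))
        (TL (10 * n) (300 * n)) (TR (10 * n) (300 * n)) × Bool) + 1 ≤ 10 ^ 86 * n ^ 36 := by
  have h1 := card_V n
  have h2 := csz_le n (by omega)
  have h3 := card_G n hn
  have h4 : Fintype.card (Var (Fin (10 * n) × Fin (2 * (300 * n)))
        (TL (10 * n) (300 * n)) (TR (10 * n) (300 * n)) × Bool) =
      Fintype.card (Var (Fin (10 * n) × Fin (2 * (300 * n)))
        (TL (10 * n) (300 * n)) (TR (10 * n) (300 * n))) * 2 := by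
    rw [Fintype.card_prod, Fintype.card_bool]
  rw [h4]
  have e1 : (csz (10 * n) (300 * n)) ^ 2 ≤ 10 ^ 26 * n ^ 12 := by
    calc (csz (10 * n) (300 * n)) ^ 2 ≤ (10 ^ 13 * n ^ 6) ^ 2 := Nat.pow_le_pow_left h2 2
      _ = 10 ^ 26 * n ^ 12 := by ring
  have e2 : n ^ 12 ≤ n ^ 36 := Nat.pow_le_pow_right (by omega) (by norm_num)
  have e3 : n ^ 6 ≤ n ^ 36 := Nat.pow_le_pow_right (by omega) (by norm_num)
  have e4 : n ≤ n ^ 36 := by
    calc n = n ^ 1 := (pow_one n).symm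
      _ ≤ n ^ 36 := Nat.pow_le_pow_right (by omega) (by norm_num)
  have e5 : 1 ≤ n ^ 36 := Nat.one_le_pow _ _ (by omega)
  omega

end sizes

theorem upper (n : ℕ) (hn : 2000 ≤ n) [NeZero (10 * n)] :
    (∃ π : SOS (lift (cnfA n)), π.size ≤ n ^ 2000) ∧
      ∃ π : PCR (lift (cnfA n)), π.size ≤ n ^ 2000 := by
  obtain ⟨Y, hY, h0, h1, h2⟩ := exists_Y (10 * n) (300 * n)
  have ht := total_le n hn
  have hn1 : 1 ≤ n := by omega
  constructor
  · obtain ⟨π, hπ⟩ := sos_upper (lift (cnfA n)) (10 * n) (10 ^ 8 * (csz (10 * n) (300 * n)) ^ 2)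
      (by omega) Y (fun i hi => (hY i hi).1) h0 h1 h2
    refine ⟨π, hπ.trans ?_⟩
    have h10 : 10 ^ 86 * n ^ 36 ≤ n ^ 122 := by
      calc 10 ^ 86 * n ^ 36 ≤ n ^ 86 * n ^ 36 :=
            Nat.mul_le_mul_right _ (Nat.pow_le_pow_left (by omega) _)
        _ = n ^ 122 := by rw [← pow_add]
    calc _ ≤ 100 * (n ^ 122) ^ 4 :=
          Nat.mul_le_mul_left _ (Nat.pow_le_pow_left (ht.trans h10) 4)
      _ ≤ n * (n ^ 122) ^ 4 := Nat.mul_le_mul_right _ (by omega)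
      _ = n ^ 489 := by rw [← pow_mul, ← pow_succ']
      _ ≤ n ^ 2000 := Nat.pow_le_pow_right hn1 (by norm_num)
  · obtain ⟨π, hπ⟩ := pcr_upper (lift (cnfA n)) (10 * n) (10 ^ 8 * (csz (10 * n) (300 * n)) ^ 2)
      (by omega) Y hY h0 h1 h2
    refine ⟨π, hπ.trans ?_⟩
    have h10 : 10 ^ 86 * n ^ 36 ≤ n ^ 122 := by
      calc 10 ^ 86 * n ^ 36 ≤ n ^ 86 * n ^ 36 :=
            Nat.mul_le_mul_right _ (Nat.pow_le_pow_left (by omega) _)
        _ = n ^ 122 := by rw [← pow_add]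
    calc _ ≤ 10 ^ 6 * (n ^ 122) ^ 10 :=
          Nat.mul_le_mul_left _ (Nat.pow_le_pow_left (ht.trans h10) 10)
      _ ≤ n ^ 6 * (n ^ 122) ^ 10 := Nat.mul_le_mul_right _ (Nat.pow_le_pow_left (by omega) _)
      _ = n ^ 1226 := by rw [← pow_mul, ← pow_add]
      _ ≤ n ^ 2000 := Nat.pow_le_pow_right hn1 (by norm_num)

/-! ### The lower bound -/

theorem kfacts (n μ N : ℕ) (hN : N + 3 ≤ μ) : KFacts n (2 * μ) N fun i => (μ : ℝ) + yv i where
  one := kmom_one _ _ _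
  compl := kmom_compl _ _ _
  bdd := kmom_bdd _ _ _ _ fun i => by
    have := chain_bounds n μ N hN i
    exact this
  psd := fun c hc => kmom_psd _ _ _ _ (fun i => chain_bounds n μ N hN i) c hc
  rel := fun S hS i => kmom_rel _ _ _ S hS i

theorem exists_pe_lift (n : ℕ) (hn : 2000 ≤ n) [NeZero (10 * n)]
    (T : Finset (Finset ((Var (Fin (10 * n) × Fin (2 * (300 * n)))
        (TL (10 * n) (300 * n)) (TR (10 * n) (300 * n)) × Bool) × Bool))) (hT : T.card ≤ 8 ^ n) :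
    ∃ good, (∀ S ∈ T, good S) ∧ ∃ η : ℝ, 0 < η ∧ Nonempty (PE (lift (cnfA n)) good η) ∧
      ∀ b : ℕ, b < 2 ^ n → η * 2 ^ (100 * b ^ 2) < 1 := by
  have hn1 : 1 ≤ n := by omega
  have hnR : (2000 : ℝ) ≤ n := by exact_mod_cast hn
  have hmom := chain_mom_of (10 * n) (300 * n) (20 * (10 * n + 4)) (by omega)
    (kfacts _ _ _ (by omega))
  have hyv0 := yv_pos (10 * n)
  have hyv1 := yv_le (10 * n)
  obtain ⟨P⟩ := exists_pe (chain (10 * n) (300 * n)) (thv (10 * n) (300 * n)) _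
    (20 * (10 * n + 4)) (10 * n) le_rfl hmom (by
      intro j
      unfold thv tcnt
      split_ifs
      · push_cast
        nlinarith
      · push_cast
        nlinarith
      · push_cast
        nlinarith) (yv (10 * n)) hyv0 (by linarith) (fun j => (chain_cnt _ _ j).2)
  obtain ⟨good, hg, ⟨P'⟩⟩ := lift_pe (by positivity) P (fun C hC => (cnf_nc _ C hC).1) T (by
    have h1 : (T.card : ℝ) ≤ 8 ^ n := by exact_mod_cast hT
    have h2 : (8 : ℝ) ^ n < ((4 / 3) ^ 10) ^ n :=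
      pow_lt_pow_left₀ (by norm_num) (by norm_num) (by omega)
    rw [← pow_mul] at h2
    exact lt_of_le_of_lt h1 h2)
  refine ⟨good, hg, _, ?_, ⟨P'⟩, ?_⟩
  · positivity
  · intro b hb
    have h1 := card_V n
    have h2 := csz_le n (by omega)
    set v := Fintype.card (Var (Fin (10 * n) × Fin (2 * (300 * n)))
        (TL (10 * n) (300 * n)) (TR (10 * n) (300 * n))) with hv
    have hz : sz (Fin (10 * n) × Fin (2 * (300 * n))) (TL (10 * n) (300 * n))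
      (TR (10 * n) (300 * n)) = csz (10 * n) (300 * n) := rfl
    rw [hz]
    set z := csz (10 * n) (300 * n) with hzz
    have hE : 1000 * (10 * n + 1) * z + 4 * v + 100 * b ^ 2 < 2 ^ (10 * n) := by
      have k1 : 1000 * (10 * n + 1) * z + 4 * v ≤ 10 ^ 18 * n ^ 7 := by
        have k2 : 1000 * (10 * n + 1) ≤ 11000 * n := by omega
        have k3 : 1000 * (10 * n + 1) * z ≤ 11000 * n * (10 ^ 13 * n ^ 6) :=
          Nat.mul_le_mul k2 h2
        have k4 : 11000 * n * (10 ^ 13 * n ^ 6) = 11 * 10 ^ 16 * n ^ 7 := by ring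
        have k5 : n ^ 6 ≤ n ^ 7 := Nat.pow_le_pow_right hn1 (by norm_num)
        omega
      have k6 : 10 ^ 18 * n ^ 7 ≤ 2 ^ n * 2 ^ n := by
        refine Nat.mul_le_mul ?_ (powsmall n 7 hn (by norm_num))
        calc (10 : ℕ) ^ 18 ≤ 2 ^ 60 := by norm_num
          _ ≤ 2 ^ n := Nat.pow_le_pow_right (by norm_num) (by omega)
      have k7 : b ^ 2 ≤ 2 ^ n * 2 ^ n := by
        rw [sq]
        exact Nat.mul_le_mul hb.le hb.le
      have k8 : 101 * (2 ^ n * 2 ^ n) < 2 ^ (10 * n) := by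
        have k9 : 2 ^ (10 * n) = (2 ^ n * 2 ^ n) * 2 ^ (8 * n) := by
          rw [← pow_add, ← pow_add]
          congr 1
          ring
        have k10 : 101 < 2 ^ (8 * n) := by
          calc 101 < 2 ^ 8 := by norm_num
            _ ≤ 2 ^ (8 * n) := Nat.pow_le_pow_right (by norm_num) (by omega)
        have k11 : 0 < 2 ^ n * 2 ^ n := by positivity
        rw [k9]
        nlinarith
      omega
    have hy : yv (10 * n) = ((2 : ℝ) ^ (2 ^ (10 * n)))⁻¹ := by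
      unfold yv
      rw [inv_pow]
    rw [hy]
    have h3 : ((2 : ℝ) ^ (2 ^ (10 * n)))⁻¹ * 2 ^ (1000 * (10 * n + 1) * z) * 2 ^ (4 * v) *
        2 ^ (100 * b ^ 2) = ((2 : ℝ) ^ (2 ^ (10 * n)))⁻¹ *
          2 ^ (1000 * (10 * n + 1) * z + 4 * v + 100 * b ^ 2) := by
      rw [pow_add, pow_add]
      ring
    rw [h3, inv_mul_lt_iff₀ (by positivity), mul_one]
    exact pow_lt_pow_right₀ (by norm_num) hE

theorem supp_card {V : Type} [Fintype V] [DecidableEq V] {G : Finset (Cl V)} (π : PCR G) :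
    (((Finset.range π.len).biUnion fun i => (π.p i).support.image fun m => m.support) ∪
        ({∅} ∪ G.image neg)).card ≤ π.bits + (1 + G.card) := by
  refine (Finset.card_union_le _ _).trans (Nat.add_le_add (pcr_supp π) ?_)
  refine (Finset.card_union_le _ _).trans (Nat.add_le_add ?_ Finset.card_image_le)
  rw [Finset.card_singleton]

theorem count_le (n b g : ℕ) (hn : 2000 ≤ n) (hb : b ≤ 2 ^ n) (hg : g ≤ 10 ^ 85 * n ^ 36) :
    b + (1 + g) ≤ 8 ^ n := by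
  have c5 : 10 ^ 85 * n ^ 36 ≤ 2 ^ n * 2 ^ n := by
    refine Nat.mul_le_mul ?_ (powsmall n 36 hn (by norm_num))
    calc (10 : ℕ) ^ 85 = (10 ^ 17) ^ 5 := by rw [← pow_mul]
      _ ≤ (2 ^ 57) ^ 5 := Nat.pow_le_pow_left (by norm_num) 5
      _ = 2 ^ 285 := by rw [← pow_mul]
      _ ≤ 2 ^ n := Nat.pow_le_pow_right (by norm_num) (by omega)
  have c6 : (8 : ℕ) ^ n = 2 ^ n * 2 ^ n * 2 ^ n := by
    rw [← mul_pow, ← mul_pow]
    norm_num
  have c7 : 4 ≤ 2 ^ n := by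
    calc 4 = 2 ^ 2 := by norm_num
      _ ≤ 2 ^ n := Nat.pow_le_pow_right (by norm_num) (by omega)
  have c8 : 2 ^ n ≤ 2 ^ n * 2 ^ n := Nat.le_mul_of_pos_left _ (by positivity)
  have c9 : 2 ^ n * 2 ^ n * 4 ≤ 2 ^ n * 2 ^ n * 2 ^ n := Nat.mul_le_mul_left _ c7
  rw [c6]
  omega

theorem lower_abs {V : Type} [Fintype V] [DecidableEq V] {G : Finset (Cl V)} (n : ℕ)
    (hn : 2000 ≤ n) (hG : G.card ≤ 10 ^ 85 * n ^ 36)
    (H : ∀ T : Finset (Finset (V × Bool)), T.card ≤ 8 ^ n → ∃ good, (∀ S ∈ T, good S) ∧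
      ∃ η : ℝ, 0 < η ∧ Nonempty (PE G good η) ∧ ∀ b : ℕ, b < 2 ^ n → η * 2 ^ (100 * b ^ 2) < 1) :
    (∀ π : SOS G, 2 ^ n ≤ π.bits) ∧ ∀ π : PCR G, 2 ^ n ≤ π.bits := by
  constructor
  · intro π
    by_contra hb
    have hb := not_le.mp hb
    have h8 : 2 ^ n ≤ 8 ^ n := Nat.pow_le_pow_left (by norm_num) n
    obtain ⟨good, hg, η, hη, ⟨P⟩, h⟩ := H _ ((sos_supp π).trans (hb.le.trans h8))
    have h1 := sos_lower hη P π (fun k m hm => hg _ (Finset.mem_union_left _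
      (Finset.mem_biUnion.mpr ⟨k, Finset.mem_univ _, Finset.mem_image.mpr ⟨m, hm, rfl⟩⟩)))
      (fun C hC m hm => hg _ (Finset.mem_union_right _
      (Finset.mem_biUnion.mpr ⟨C, hC, Finset.mem_image.mpr ⟨m, hm, rfl⟩⟩)))
    have h2 := h π.bits hb
    linarith
  · intro π
    by_contra hb
    have hb := not_le.mp hb
    obtain ⟨good, hg, η, hη, ⟨P⟩, h⟩ := H _ ((supp_card π).trans (count_le n _ _ hn hb.le hG))
    have h1 := pcr_lower hη P π (fun i hi m hm => hg _ (Finset.mem_union_left _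
      (Finset.mem_biUnion.mpr ⟨i, Finset.mem_range.mpr hi, Finset.mem_image.mpr ⟨m, hm, rfl⟩⟩)))
      (hg _ (Finset.mem_union_right _ (Finset.mem_union_left _ (Finset.mem_singleton_self _))))
      (fun C hC => hg _ (Finset.mem_union_right _ (Finset.mem_union_right _
        (Finset.mem_image_of_mem _ hC))))
    have h2 := h π.bits hb
    linarith

theorem lower (n : ℕ) (hn : 2000 ≤ n) [NeZero (10 * n)] :
    (∀ π : SOS (lift (cnfA n)), 2 ^ n ≤ π.bits) ∧ ∀ π : PCR (lift (cnfA n)), 2 ^ n ≤ π.bits :=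
  lower_abs n hn (card_G n hn) (exists_pe_lift n hn)

theorem final (n : ℕ) (hn : 2000 ≤ n) :
    ∃ (V : Type) (_ : Fintype V) (F : Finset (Cl V)), (∀ C ∈ F, C.card ≤ 6) ∧
      (∃ π : SOS F, π.size ≤ n ^ 2000) ∧ (∃ π : PCR F, π.size ≤ n ^ 2000) ∧
      (∀ π : SOS F, 2 ^ n ≤ π.bits) ∧ (∀ π : PCR F, 2 ^ n ≤ π.bits) := by
  have : NeZero (10 * n) := ⟨by omega⟩
  exact ⟨_, inferInstance, lift (cnfA n), width_G n, (upper n hn).1, (upper n hn).2,
    (lower n hn).1, (lower n hn).2⟩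

end Pool.Agent.T9h19.MB
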