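import Pool.Agent.T9h19.MB.Chain
import Pool.Agent.T9h19.MB.B1

/-!
# (B2), (B3): one gadget, the chain of gadgets
-/

set_option autoImplicit false
set_option linter.unusedSectionVars false

open MvPolynomial

namespace Pool.Agent.T9h19.MB

section
variable {V : Type} [Fintype V] [DecidableEq V]

theorem Stat.neg {G : Finset (Cl V)} {s : ℕ} {p : Pol V} (h : Stat G s p) : Stat G s (-p) := by
  have := h.smul (-1)
  rwa [C_neg, C_1, neg_one_mul] at this

theorem Stat.sub {G : Finset (Cl V)} {s s' : ℕ} {p p' : Pol V} (h : Stat G s p)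
    (h' : Stat G s' p') : Stat G (s + s') (p - p') := by
  rw [sub_eq_add_neg]
  exact h.add h'.neg

theorem Stat.congr {G : Finset (Cl V)} {s : ℕ} {p p' : Pol V} (h : Stat G s p) (hp : p = p') :
    Stat G s p' := hp ▸ h

theorem sum_tele {M : Type} [AddCommGroup M] (m : ℕ) (f : Fin (m + 1) → M) :
    ∑ i : Fin m, (f i.succ - f i.castSucc) = f (Fin.last m) - f 0 := by
  rw [Finset.sum_sub_distrib]
  have h1 := Fin.sum_univ_succ f
  have h2 := Fin.sum_univ_castSucc f
  rw [h1] at h2
  have h3 : ∑ i : Fin m, f i.succ = ∑ i : Fin m, f i.castSucc + f (Fin.last m) - f 0 := by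
    rw [← h2]; abel
  rw [h3]; abel

/-- A row or a column. -/
theorem stat_prefix (F : Finset (Cl V)) (m : ℕ) (c : Fin (m + 1) → V) (w : Fin m → V) (e : V)
    (h0 : forb [(c 0, true)] ∈ F) (hadd : ∀ i, ADD (c i.castSucc) (w i) (c i.succ) ⊆ F)
    (he : EQ (c (Fin.last m)) e ⊆ F) (hcw : ∀ i j, c i ≠ w j) (hce : c (Fin.last m) ≠ e)
    (hc : Function.Injective c) :
    Stat (lift F) ((m + 2) * 100000) (∑ i, lp (w i) - lp e) := by
  have h1 : Stat (lift F) (m * 100000)
      (∑ i : Fin m, (lp (c i.succ) - lp (c i.castSucc) - lp (w i))) := by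
    have := Stat.sum (G := lift F) (Finset.univ : Finset (Fin m)) (s := 100000)
      (p := fun i => lp (c i.succ) - lp (c i.castSucc) - lp (w i)) (fun i _ =>
      stat_add F (c i.castSucc) (w i) (c i.succ) (hcw _ _) (by
        intro h
        have := hc h
        have := congrArg Fin.val this
        simp at this) (hcw _ _).symm (hadd i))
    rwa [Finset.card_univ, Fintype.card_fin] at this
  have h2 := stat_false F (c 0) h0
  have h3 := stat_eq F (c (Fin.last m)) e hce he
  refine ((h3.sub (h1.add h2)).mono ?_).congr ?_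
  · ring_nf
    rfl
  · rw [Finset.sum_sub_distrib, sum_tele m fun i => lp (c i)]
    ring

end

section
variable {U L R J : Type} [Fintype U] [DecidableEq U] [Fintype L] [DecidableEq L]
  [Fintype R] [DecidableEq R] [Fintype J] [DecidableEq J]

theorem sum_en {M A : Type} [Fintype A] [AddCommMonoid M] (f : A → M) :
    ∑ i : Fin (Fintype.card A), f (en A i) = ∑ a : A, f a :=
  Equiv.sum_comp (Fintype.equivFin A).symm f

variable (D : Dat U L R J)

theorem cnf_one : forb [(Var.one, false)] ∈ D.cnf := by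
  unfold Dat.cnf
  simp only [Finset.mem_union]
  exact Or.inl (Or.inl (Or.inl (Or.inl (Finset.mem_singleton_self _))))

theorem cnf_nok {a : L} {b : R} (h : ¬ D.ok a b) : forb [(Var.w a b, true)] ∈ D.cnf := by
  unfold Dat.cnf
  simp only [Finset.mem_union]
  refine Or.inl (Or.inl (Or.inl (Or.inr ?_)))
  exact Finset.mem_image.mpr ⟨(a, b), Finset.mem_filter.mpr ⟨Finset.mem_univ _, h⟩, rfl⟩

theorem cnf_col {b : R} (hb : b ∈ D.Rs) {C : Cl (Var U L R)}
    (hC : C ∈ ({forb [(Var.col b 0, true)]} : Finset (Cl (Var U L R))) ∪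
    (Finset.univ.biUnion fun i : Fin (Fintype.card L) =>
      ADD (Var.col b i.castSucc) (Var.w (en L i) b) (Var.col b i.succ)) ∪
    EQ (Var.col b (Fin.last _)) Var.one) : C ∈ D.cnf := by
  unfold Dat.cnf
  rw [Finset.mem_union, Finset.mem_union, Finset.mem_union]
  exact Or.inl (Or.inl (Or.inr (Finset.mem_biUnion.mpr ⟨b, hb, hC⟩)))

theorem cnf_row {a : L} (ha : a ∈ D.Ls) {C : Cl (Var U L R)}
    (hC : C ∈ ({forb [(Var.row a 0, true)]} : Finset (Cl (Var U L R))) ∪
    (Finset.univ.biUnion fun i : Fin (Fintype.card R) =>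
      ADD (Var.row a i.castSucc) (Var.w a (en R i)) (Var.row a i.succ)) ∪
    EQ (Var.row a (Fin.last _)) (Var.act a)) : C ∈ D.cnf := by
  unfold Dat.cnf
  rw [Finset.mem_union, Finset.mem_union]
  exact Or.inl (Or.inr (Finset.mem_biUnion.mpr ⟨a, ha, hC⟩))

theorem cnf_act1 {a : L} (ha : a ∈ D.Ls) (h : (D.act a).2 = none) :
    EQ (Var.act a) (Var.u (D.act a).1) ⊆ D.cnf := by
  intro C hC
  unfold Dat.cnf
  rw [Finset.mem_union]
  refine Or.inr (Finset.mem_biUnion.mpr ⟨a, ha, ?_⟩)
  rw [h]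
  exact hC

theorem cnf_act2 {a : L} (ha : a ∈ D.Ls) {u' : U} (h : (D.act a).2 = some u') :
    ANDN (Var.u (D.act a).1) (Var.u u') (Var.act a) ⊆ D.cnf := by
  intro C hC
  unfold Dat.cnf
  rw [Finset.mem_union]
  refine Or.inr (Finset.mem_biUnion.mpr ⟨a, ha, ?_⟩)
  rw [h]
  exact hC

theorem stat_col {b : R} (hb : b ∈ D.Rs) :
    Stat (lift D.cnf) ((Fintype.card L + 3) * 100000) (∑ a : L, lp (Var.w a b) - 1) := by
  have h1 := stat_prefix D.cnf (Fintype.card L) (fun i => Var.col b i)
    (fun i => Var.w (en L i) b) Var.one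
    (cnf_col D hb (Finset.mem_union_left _ (Finset.mem_union_left _ (Finset.mem_singleton_self _))))
    (fun i C hC => cnf_col D hb (Finset.mem_union_left _ (Finset.mem_union_right _
      (Finset.mem_biUnion.mpr ⟨i, Finset.mem_univ _, hC⟩))))
    (fun C hC => cnf_col D hb (Finset.mem_union_right _ hC))
    (fun _ _ => by simp) (by simp) (fun i j h => by simpa using h)
  have h2 := stat_true D.cnf Var.one (cnf_one D)
  rw [sum_en (fun a => lp (Var.w a b))] at h1
  refine ((h1.add h2).mono ?_).congr ?_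
  · ring_nf
    rfl
  · ring

theorem stat_row {a : L} (ha : a ∈ D.Ls) :
    Stat (lift D.cnf) ((Fintype.card R + 2) * 100000)
      (∑ b : R, lp (Var.w a b) - lp (Var.act a)) := by
  have h1 := stat_prefix D.cnf (Fintype.card R) (fun i => Var.row a i)
    (fun i => Var.w a (en R i)) (Var.act a)
    (cnf_row D ha (Finset.mem_union_left _ (Finset.mem_union_left _ (Finset.mem_singleton_self _))))
    (fun i C hC => cnf_row D ha (Finset.mem_union_left _ (Finset.mem_union_right _
      (Finset.mem_biUnion.mpr ⟨i, Finset.mem_univ _, hC⟩))))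
    (fun C hC => cnf_row D ha (Finset.mem_union_right _ hC))
    (fun _ _ => by simp) (by simp) (fun i j h => by simpa using h)
  rw [sum_en (fun b => lp (Var.w a b))] at h1
  exact h1

theorem stat_gadget (j : J) :
    Stat (lift D.cnf) (10 ^ 7 * (sz U L R) ^ 2)
      (∑ a ∈ D.Ls.filter (fun a => D.cl a = j), lp (Var.act a) - C (D.cnt j : ℚ)) := by
  set Lj := D.Ls.filter (fun a => D.cl a = j) with hLj
  set Rj := D.Rs.filter (fun b => D.cr b = j) with hRj
  have hA := Stat.sum (G := lift D.cnf) Lj (s := (Fintype.card R + 2) * 100000)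
    (p := fun a => ∑ b : R, lp (Var.w a b) - lp (Var.act a))
    (fun a ha => stat_row D (Finset.mem_filter.mp ha).1)
  have hB := Stat.sum (G := lift D.cnf) Rj (s := (Fintype.card L + 3) * 100000)
    (p := fun b => ∑ a : L, lp (Var.w a b) - 1)
    (fun b hb => stat_col D (Finset.mem_filter.mp hb).1)
  have hN1 := Stat.sum (G := lift D.cnf) (Lj ×ˢ Rjᶜ) (s := 100000)
    (p := fun q => lp (Var.w q.1 q.2)) (fun q hq => by
      refine stat_false D.cnf _ (cnf_nok D ?_)
      rintro ⟨_, h2, h3⟩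
      rw [Finset.mem_product] at hq
      have h4 := Finset.mem_compl.mp hq.2
      apply h4
      rw [hRj, Finset.mem_filter]
      exact ⟨h2, by rw [← h3]; exact (Finset.mem_filter.mp hq.1).2⟩)
  have hN2 := Stat.sum (G := lift D.cnf) (Ljᶜ ×ˢ Rj) (s := 100000)
    (p := fun q => lp (Var.w q.1 q.2)) (fun q hq => by
      refine stat_false D.cnf _ (cnf_nok D ?_)
      rintro ⟨h1, _, h3⟩
      rw [Finset.mem_product] at hq
      have h4 := Finset.mem_compl.mp hq.1
      apply h4
      rw [hLj, Finset.mem_filter]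
      exact ⟨h1, by rw [h3]; exact (Finset.mem_filter.mp hq.2).2⟩)
  have hall := (hB.sub hA).add (hN1.sub hN2)
  refine (hall.mono ?_).congr ?_
  · have c1 : Lj.card ≤ Fintype.card L := Finset.card_le_univ _
    have c2 : Rj.card ≤ Fintype.card R := Finset.card_le_univ _
    have c3 : (Lj ×ˢ Rjᶜ).card ≤ Fintype.card L * Fintype.card R := by
      rw [← Fintype.card_prod]; exact Finset.card_le_univ _
    have c4 : (Ljᶜ ×ˢ Rj).card ≤ Fintype.card L * Fintype.card R := by
      rw [← Fintype.card_prod]; exact Finset.card_le_univ _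
    have hs : sz U L R = Fintype.card U + Fintype.card L + Fintype.card R +
      Fintype.card L * Fintype.card R + 1 := rfl
    have d1 : Lj.card * (Fintype.card R + 2) ≤ Fintype.card L * (Fintype.card R + 2) :=
      Nat.mul_le_mul_right _ c1
    have d2 : Rj.card * (Fintype.card L + 3) ≤ Fintype.card R * (Fintype.card L + 3) :=
      Nat.mul_le_mul_right _ c2
    have d3 : Rj.card * (Fintype.card L + 3) + Lj.card * (Fintype.card R + 2) +
        ((Lj ×ˢ Rjᶜ).card + (Ljᶜ ×ˢ Rj).card) ≤ 4 * sz U L R := by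
      rw [hs]
      nlinarith
    have d4 : 4 * sz U L R ≤ 4 * (sz U L R) ^ 2 := by
      have : 1 ≤ sz U L R := by rw [hs]; omega
      nlinarith
    calc _ = (Rj.card * (Fintype.card L + 3) + Lj.card * (Fintype.card R + 2) +
        ((Lj ×ˢ Rjᶜ).card + (Ljᶜ ×ˢ Rj).card)) * 100000 := by ring
      _ ≤ (4 * (sz U L R) ^ 2) * 100000 := Nat.mul_le_mul_right _ (d3.trans d4)
      _ ≤ 10 ^ 7 * (sz U L R) ^ 2 := by
        have : 0 ≤ (sz U L R) ^ 2 := Nat.zero_le _
        nlinarith
  · rw [Finset.sum_sub_distrib, Finset.sum_sub_distrib, Finset.sum_product, Finset.sum_product_right]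
    have e1 : ∀ a : L, ∑ b : R, lp (V := Var U L R) (Var.w a b) =
        ∑ b ∈ Rj, lp (Var.w a b) + ∑ b ∈ Rjᶜ, lp (Var.w a b) := fun a =>
      (Finset.sum_add_sum_compl Rj _).symm
    have e2 : ∀ b : R, ∑ a : L, lp (V := Var U L R) (Var.w a b) =
        ∑ a ∈ Lj, lp (Var.w a b) + ∑ a ∈ Ljᶜ, lp (Var.w a b) := fun b =>
      (Finset.sum_add_sum_compl Lj _).symm
    simp only [e1, e2]
    rw [Finset.sum_add_distrib, Finset.sum_add_distrib,
      Finset.sum_comm (s := Rj) (t := Lj)]
    have e3 : (∑ _b ∈ Rj, (1 : Pol (Var U L R × Bool))) = C (D.cnt j : ℚ) := by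
      rw [Finset.sum_const, nsmul_eq_mul, mul_one]
      simp [Dat.cnt, hRj]
    rw [e3]
    ring

end

end Pool.Agent.T9h19.MB
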