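import Pool.Agent.T9h19.MB.Gad

/-!
# (B3): the chain of gadgets
-/

set_option autoImplicit false
set_option linter.unusedSectionVars false
set_option synthInstance.maxSize 2000

open MvPolynomial

namespace Pool.Agent.T9h19.MB

section
variable {n μ : ℕ} [NeZero n]

/-- The size of the chain. -/
def csz (n μ : ℕ) : ℕ := sz (Fin n × Fin (2 * μ)) (TL n μ) (TR n μ)

theorem csz_ge (hn : 0 < n) : 2 * μ + (2 * μ) * (2 * μ) + 1 ≤ csz n μ := by
  have h : Fintype.card (TL n μ) = 2 * μ * 2 + (n * (2 * μ) + n * (2 * μ * (2 * μ))) := by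
    simp [TL, Fintype.card_sum, Fintype.card_prod]
  have h2 : Fintype.card (TL n μ) + 1 ≤ csz n μ := by
    unfold csz sz
    omega
  have h3 : 2 * μ * (2 * μ) ≤ n * (2 * μ * (2 * μ)) := Nat.le_mul_of_pos_left _ hn
  rw [h] at h2
  have h4 : 0 ≤ n * (2 * μ) := Nat.zero_le _
  omega

theorem stat_sum' {V : Type} [Fintype V] [DecidableEq V] {G : Finset (Cl V)} {ι : Type}
    (I : Finset ι) {s m : ℕ} (hI : I.card ≤ m) {p : ι → Pol V} (h : ∀ i ∈ I, Stat G s (p i)) :
    Stat G (m * s) (∑ i ∈ I, p i) :=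
  (Stat.sum I h).mono (Nat.mul_le_mul_right _ hI)

theorem act_inl (k : Fin (2 * μ)) (b : Bool) :
    Stat (lift (chain n μ).cnf) 100000 (lp (Var.act (.inl (k, b))) - lp (Var.u ((0 : Fin n), k))) := by
  have ha : (Sum.inl (k, b) : TL n μ) ∈ (chain n μ).Ls :=
    Finset.mem_filter.mpr ⟨Finset.mem_univ _, rfl⟩
  exact stat_eq _ _ _ (by simp) (cnf_act1 (chain n μ) ha rfl)

theorem act_inr (j : Fin n) (hj : j ≠ 0) (k : Fin (2 * μ)) :
    Stat (lift (chain n μ).cnf) 100000
      (lp (Var.act (.inr (.inl (j, k)))) - lp (Var.u (j, k))) := by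
  have ha : (Sum.inr (Sum.inl (j, k)) : TL n μ) ∈ (chain n μ).Ls :=
    Finset.mem_filter.mpr ⟨Finset.mem_univ _, by simp [validL, hj]⟩
  exact stat_eq _ _ _ (by simp) (cnf_act1 (chain n μ) ha rfl)

theorem act_pair (i : Fin n) (k k' : Fin (2 * μ)) (hk : k ≠ k') :
    Stat (lift (chain n μ).cnf) 100000
      (lp (Var.act (.inr (.inr (i, k, k')))) - lp (Var.u (i, k)) +
        lp (Var.u (i, k)) * lp (Var.u (i, k'))) := by
  have ha : (Sum.inr (Sum.inr (i, k, k')) : TL n μ) ∈ (chain n μ).Ls :=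
    Finset.mem_filter.mpr ⟨Finset.mem_univ _, by simp [validL, hk]⟩
  refine stat_andn _ _ _ _ ?_ (by simp) (by simp) (cnf_act2 (chain n μ) ha rfl)
  intro h
  apply hk
  have h1 := Var.u.inj h
  exact (Prod.mk.inj h1).2

theorem stat_pairs (i : Fin n) : Stat (lift (chain n μ).cnf) (2 * csz n μ * 100000)
    (∑ k : Fin (2 * μ), ∑ k' ∈ Finset.univ.filter (fun k' => k ≠ k'),
      lp (Var.act (.inr (.inr (i, k, k')))) - (C (μ : ℚ) * C (μ : ℚ) - Yp n μ i ^ 2)) := by
  have hn : 0 < n := Nat.pos_of_ne_zero (NeZero.ne n)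
  have h1 : Stat (lift (chain n μ).cnf) (2 * μ * ((2 * μ) * 100000))
      (∑ k : Fin (2 * μ), ∑ k' ∈ Finset.univ.filter (fun k' => k ≠ k'),
      (lp (Var.act (.inr (.inr (i, k, k')))) - lp (Var.u (i, k)) +
        lp (Var.u (i, k)) * lp (Var.u (i, k')))) := by
    refine stat_sum' _ (by simp) fun k _ => ?_
    refine stat_sum' _ ?_ fun k' hk' => ?_
    · exact (Finset.card_le_univ _).trans (by simp)
    · exact act_pair i k k' (Finset.mem_filter.mp hk').2
  have h2 : Stat (lift (chain n μ).cnf) (2 * μ * 100000)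
      (∑ k : Fin (2 * μ), (lp (V := Var (Fin n × Fin (2 * μ)) (TL n μ) (TR n μ)) (Var.u (i, k)) *
        lp (Var.u (i, k)) - lp (Var.u (i, k)))) :=
    stat_sum' _ (by simp) fun k _ => stat_bool _ _
  refine ((h1.add h2).mono ?_).congr ?_
  · have := csz_ge (n := n) (μ := μ) hn
    nlinarith
  · have e1 : ∀ k : Fin (2 * μ), ∑ k' ∈ Finset.univ.filter (fun k' => k ≠ k'),
        (lp (V := Var (Fin n × Fin (2 * μ)) (TL n μ) (TR n μ)) (Var.act (.inr (.inr (i, k, k')))) -
          lp (Var.u (i, k)) + lp (Var.u (i, k)) * lp (Var.u (i, k'))) =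
        ∑ k' ∈ Finset.univ.filter (fun k' => k ≠ k'), lp (Var.act (.inr (.inr (i, k, k')))) -
        (∑ k' : Fin (2 * μ), (lp (Var.u (i, k)) - lp (Var.u (i, k)) * lp (Var.u (i, k'))) -
          (lp (Var.u (i, k)) - lp (Var.u (i, k)) * lp (Var.u (i, k)))) := by
      intro k
      have e2 : ∑ k' : Fin (2 * μ), (lp (V := Var (Fin n × Fin (2 * μ)) (TL n μ) (TR n μ))
          (Var.u (i, k)) - lp (Var.u (i, k)) * lp (Var.u (i, k'))) =
          ∑ k' ∈ Finset.univ.filter (fun k' => k ≠ k'),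
            (lp (Var.u (i, k)) - lp (Var.u (i, k)) * lp (Var.u (i, k'))) +
          (lp (Var.u (i, k)) - lp (Var.u (i, k)) * lp (Var.u (i, k))) := by
        have e3 : (Finset.univ.filter fun k' => k ≠ k') = Finset.univ.erase k := by
          ext k'
          simp [eq_comm]
        rw [e3, Finset.sum_erase_add _ _ (Finset.mem_univ k)]
      rw [e2, add_sub_cancel_right, ← Finset.sum_sub_distrib]
      refine Finset.sum_congr rfl fun k' _ => ?_
      ring
    rw [Finset.sum_congr rfl fun k _ => e1 k, Finset.sum_sub_distrib, Finset.sum_sub_distrib,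
      Finset.sum_sub_distrib, Finset.sum_sub_distrib]
    have e4 : ∑ k : Fin (2 * μ), ∑ k' : Fin (2 * μ),
        (lp (V := Var (Fin n × Fin (2 * μ)) (TL n μ) (TR n μ)) (Var.u (i, k)) -
          lp (Var.u (i, k)) * lp (Var.u (i, k'))) =
        2 * C (μ : ℚ) * (∑ k : Fin (2 * μ), lp (Var.u (i, k))) -
          (∑ k : Fin (2 * μ), lp (Var.u (i, k))) ^ 2 := by
      simp only [Finset.sum_sub_distrib, Finset.sum_const, Finset.card_univ, Fintype.card_fin]
      congr 1
      · rw [← Finset.smul_sum, nsmul_eq_mul]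
        push_cast
        simp
      · simp only [← Finset.mul_sum]
        rw [← Finset.sum_mul, sq]
    rw [e4]
    unfold Yp
    ring

theorem stat_first (n μ : ℕ) [NeZero n] : Stat (lift (chain n μ).cnf)
    (10 ^ 8 * (sz (Fin n × Fin (2 * μ)) (TL n μ) (TR n μ)) ^ 2) (2 * Yp n μ 0 - 1) := by
  have hn : 0 < n := Nat.pos_of_ne_zero (NeZero.ne n)
  have h0 := stat_gadget (chain n μ) 0
  have hc : (chain n μ).cnt 0 = 2 * μ + 1 := by
    rw [(chain_cnt n μ 0).1]
    unfold tcnt
    rw [if_pos rfl]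
  rw [sum_first, hc] at h0
  have h1 : ∀ b : Bool, Stat (lift (chain n μ).cnf) (2 * μ * 100000)
      (∑ k : Fin (2 * μ), (lp (Var.act (.inl (k, b))) - lp (Var.u ((0 : Fin n), k)))) :=
    fun b => stat_sum' _ (by simp) fun k _ => act_inl k b
  refine (((h0.sub (h1 true)).sub (h1 false)).mono ?_).congr ?_
  · have h2 := csz_ge (n := n) (μ := μ) hn
    have h3 : csz n μ = sz (Fin n × Fin (2 * μ)) (TL n μ) (TR n μ) := rfl
    rw [← h3]
    have h4 : csz n μ ≤ (csz n μ) ^ 2 := by
      have : 1 ≤ csz n μ := by omega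
      nlinarith
    have h5 : 2 * μ ≤ (csz n μ) ^ 2 := by
      have : 2 * μ ≤ csz n μ := by
        have : 0 ≤ 2 * μ * (2 * μ) := Nat.zero_le _
        omega
      omega
    omega
  · simp only [Finset.sum_add_distrib, Finset.sum_sub_distrib]
    unfold Yp
    push_cast
    simp only [map_add, map_mul, map_one, map_natCast, map_ofNat]
    ring

theorem stat_next (n μ : ℕ) [NeZero n] (i j : Fin n) (hij : j.val = i.val + 1) :
    Stat (lift (chain n μ).cnf) (10 ^ 8 * (sz (Fin n × Fin (2 * μ)) (TL n μ) (TR n μ)) ^ 2)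
      (Yp n μ j - Yp n μ i ^ 2) := by
  have hn : 0 < n := Nat.pos_of_ne_zero (NeZero.ne n)
  have h0 := stat_gadget (chain n μ) j.castSucc
  have hj0 : j ≠ 0 := by
    intro h
    have := congrArg Fin.val h
    rw [Fin.val_zero] at this
    omega
  have hc : (chain n μ).cnt j.castSucc = μ * μ + μ := by
    rw [(chain_cnt n μ j.castSucc).1]
    unfold tcnt
    rw [if_neg, if_neg]
    · intro h3
      have := congrArg Fin.val h3
      have h4 := j.isLt
      simp at this
      omega
    · intro h3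
      have := congrArg Fin.val h3
      rw [Fin.val_castSucc, Fin.val_zero] at this
      omega
  rw [sum_next _ i j hij, hc] at h0
  have h1 : Stat (lift (chain n μ).cnf) (2 * μ * 100000)
      (∑ k : Fin (2 * μ), (lp (Var.act (.inr (.inl (j, k)))) - lp (Var.u (j, k)))) :=
    stat_sum' _ (by simp) fun k _ => act_inr j hj0 k
  refine (((h0.sub h1).sub (stat_pairs i)).mono ?_).congr ?_
  · have h2 := csz_ge (n := n) (μ := μ) hn
    have h3 : csz n μ = sz (Fin n × Fin (2 * μ)) (TL n μ) (TR n μ) := rfl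
    rw [← h3]
    have h4 : csz n μ ≤ (csz n μ) ^ 2 := by
      have : 1 ≤ csz n μ := by omega
      nlinarith
    have h5 : 2 * μ ≤ (csz n μ) ^ 2 := by
      have : 2 * μ ≤ csz n μ := by
        have : 0 ≤ 2 * μ * (2 * μ) := Nat.zero_le _
        omega
      omega
    omega
  · simp only [Finset.sum_sub_distrib]
    unfold Yp
    push_cast
    simp only [map_add, map_mul, map_natCast]
    ring

theorem stat_last (n μ : ℕ) [NeZero n] (i : Fin n) (hi : i.val + 1 = n) :
    Stat (lift (chain n μ).cnf) (10 ^ 8 * (sz (Fin n × Fin (2 * μ)) (TL n μ) (TR n μ)) ^ 2)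
      (Yp n μ i ^ 2) := by
  have hn : 0 < n := Nat.pos_of_ne_zero (NeZero.ne n)
  have h0 := stat_gadget (chain n μ) (Fin.last n)
  have hc : (chain n μ).cnt (Fin.last n) = μ * μ := by
    rw [(chain_cnt n μ (Fin.last n)).1]
    unfold tcnt
    rw [if_neg, if_pos rfl]
    intro h3
    have := congrArg Fin.val h3
    simp at this
    omega
  rw [sum_last _ i hi, hc] at h0
  refine (((stat_pairs i).sub h0).mono ?_).congr ?_
  · have h2 := csz_ge (n := n) (μ := μ) hn
    have h3 : csz n μ = sz (Fin n × Fin (2 * μ)) (TL n μ) (TR n μ) := rfl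
    rw [← h3]
    have h4 : csz n μ ≤ (csz n μ) ^ 2 := by
      have : 1 ≤ csz n μ := by omega
      nlinarith
    omega
  · push_cast
    simp only [map_mul, map_natCast]
    ring

end

end Pool.Agent.T9h19.MB
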